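import Mathlib

open scoped ComplexConjugate
open Filter

namespace F96

theorem abstract_zero_re (e P Q R S t : ℂ) :
    (e * (P + t * Q + conj t * R + conj t * t * S)).re =
      (e * P).re + (t * (e * Q + conj (e * R))).re + ‖t‖ ^ 2 * (e * S).re := by
  rw [Complex.sq_norm, Complex.normSq_apply]
  simp only [Complex.mul_re, Complex.add_re, Complex.mul_im, Complex.add_im, Complex.conj_re,
    Complex.conj_im]
  ring

theorem abstract_zero_key {H : Type*} [NormedAddCommGroup H] [InnerProductSpace ℂ H]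
    (C : H →L[ℂ] H) (w : ℝ) (hw0 : 0 ≤ w) (hw : ∀ x, ‖(inner ℂ x (C x) : ℂ)‖ ≤ w * ‖x‖ ^ 2)
    (x y : H) (hx : ‖x‖ = 1) (K : ℝ) (hy : ‖y‖ ≤ K) (h2 : (inner ℂ y x : ℂ) = 0)
    (e : ℂ) (he : ‖e‖ = 1) :
    ‖e * inner ℂ x (C y) + conj (e * inner ℂ y (C x))‖ ^ 2 ≤
      2 * (4 * w * K ^ 2 + 2) * (w - (e * inner ℂ x (C x)).re) := by
  obtain ⟨q, hq⟩ : ∃ q : ℂ, q = e * inner ℂ x (C y) + conj (e * inner ℂ y (C x)) := ⟨_, rfl⟩
  rw [← hq]
  have hK : 0 ≤ K := (norm_nonneg y).trans hy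
  obtain ⟨M, hM⟩ : ∃ M : ℝ, M = 4 * w * K ^ 2 + 2 := ⟨_, rfl⟩
  have hM0 : 0 < M := by rw [hM]; positivity
  rw [← hM]
  obtain ⟨t, ht⟩ : ∃ t : ℂ, t = ((M⁻¹ : ℝ) : ℂ) * conj q := ⟨_, rfl⟩
  have htn : ‖t‖ ^ 2 = M⁻¹ ^ 2 * ‖q‖ ^ 2 := by
    rw [ht, norm_mul, Complex.norm_real, RCLike.norm_conj, mul_pow, Real.norm_eq_abs, sq_abs]
  have htq : (t * q).re = M⁻¹ * ‖q‖ ^ 2 := by
    rw [ht, mul_assoc, Complex.conj_mul']
    rw [← Complex.ofReal_pow, ← Complex.ofReal_mul, Complex.ofReal_re]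
  have hxy : (inner ℂ x y : ℂ) = 0 := by
    rw [← inner_conj_symm, h2, map_zero]
  have hn : ‖x + t • y‖ ^ 2 = 1 + ‖t‖ ^ 2 * ‖y‖ ^ 2 := by
    rw [norm_add_sq (𝕜 := ℂ), inner_smul_right, hxy, hx, norm_smul]
    simp
    ring
  have hin : (inner ℂ (x + t • y) (C (x + t • y)) : ℂ) = inner ℂ x (C x) + t * inner ℂ x (C y) +
      conj t * inner ℂ y (C x) + conj t * t * inner ℂ y (C y) := by
    rw [map_add, map_smul, inner_add_left, inner_add_right, inner_add_right, inner_smul_left,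
      inner_smul_left, inner_smul_right, inner_smul_right]
    ring
  have h5 := hw (x + t • y)
  rw [hn, hin] at h5
  have h6 : (e * (inner ℂ x (C x) + t * inner ℂ x (C y) +
      conj t * inner ℂ y (C x) + conj t * t * inner ℂ y (C y))).re ≤ w * (1 + ‖t‖ ^ 2 * ‖y‖ ^ 2) := by
    refine (Complex.re_le_norm _).trans ?_
    rw [norm_mul, he, one_mul]
    exact h5
  rw [abstract_zero_re, ← hq, htq, htn] at h6
  have h7 : -(e * inner ℂ y (C y)).re ≤ w * ‖y‖ ^ 2 := by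
    have h8 := (abs_le.1 (Complex.abs_re_le_norm (e * inner ℂ y (C y)))).1
    rw [norm_mul, he, one_mul] at h8
    have := hw y
    linarith
  have h9 : ‖y‖ ^ 2 ≤ K ^ 2 := pow_le_pow_left₀ (norm_nonneg _) hy 2
  have h10 : w * ‖y‖ ^ 2 ≤ w * K ^ 2 := mul_le_mul_of_nonneg_left h9 hw0
  have h11 : w * ‖y‖ ^ 2 - (e * inner ℂ y (C y)).re ≤ M / 2 := by
    rw [hM]
    linarith
  have h12 : 0 ≤ M⁻¹ ^ 2 * ‖q‖ ^ 2 := by positivity
  have h13 := mul_le_mul_of_nonneg_left h11 h12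
  have h14 : M⁻¹ ^ 2 * ‖q‖ ^ 2 * (M / 2) = M⁻¹ * ‖q‖ ^ 2 / 2 := by
    field_simp
  have h15 : M⁻¹ * ‖q‖ ^ 2 / 2 ≤ w - (e * inner ℂ x (C x)).re := by
    nlinarith
  have h16 : ‖q‖ ^ 2 = 2 * M * (M⁻¹ * ‖q‖ ^ 2 / 2) := by
    field_simp
  rw [h16]
  exact mul_le_mul_of_nonneg_left h15 (by positivity)

theorem abstract_zero {H : Type*} [NormedAddCommGroup H] [InnerProductSpace ℂ H]
    (C : H →L[ℂ] H) (w : ℝ) (hw : ∀ x, ‖(inner ℂ x (C x) : ℂ)‖ ≤ w * ‖x‖ ^ 2)
    (f : H) (hf : ‖(inner ℂ f (C f) : ℂ)‖ = w)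
    (x y : ℕ → H) (hx : ∀ n, ‖x n‖ = 1) (K : ℝ) (hy : ∀ n, ‖y n‖ ≤ K)
    (δ c₀ : ℂ) (hδ : ‖δ‖ = 1)
    (h1 : Tendsto (fun n => (inner ℂ (x n) (C (x n)) : ℂ)) atTop (nhds (δ * inner ℂ f (C f))))
    (h2 : ∀ n, (inner ℂ (y n) (x n) : ℂ) = 0)
    (h3 : Tendsto (fun n => (inner ℂ (y n) (C (x n)) : ℂ)) atTop (nhds 0))
    (h4 : Tendsto (fun n => (inner ℂ (x n) (C (y n)) : ℂ)) atTop (nhds c₀)) : c₀ = 0 := by
  have hw0 : 0 ≤ w := hf ▸ norm_nonneg _
  obtain ⟨z, hz⟩ : ∃ z : ℂ, z = inner ℂ f (C f) := ⟨_, rfl⟩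
  rw [← hz] at hf h1
  obtain ⟨e0, he0, he0z⟩ : ∃ e : ℂ, ‖e‖ = 1 ∧ e * z = (w : ℂ) := by
    by_cases h0 : z = 0
    · refine ⟨1, norm_one, ?_⟩
      rw [h0, norm_zero] at hf
      rw [h0, mul_zero, ← hf, Complex.ofReal_zero]
    · have hzn : ‖z‖ ≠ 0 := norm_ne_zero_iff.2 h0
      refine ⟨conj z / (‖z‖ : ℂ), ?_, ?_⟩
      · rw [norm_div, RCLike.norm_conj, Complex.norm_real, Real.norm_eq_abs, abs_norm, div_self hzn]
      · rw [div_mul_eq_mul_div, Complex.conj_mul', ← hf]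
        have : (‖z‖ : ℂ) ≠ 0 := by exact_mod_cast hzn
        field_simp
  obtain ⟨e, he⟩ : ∃ e : ℂ, e = e0 * conj δ := ⟨_, rfl⟩
  have hen : ‖e‖ = 1 := by rw [he, norm_mul, RCLike.norm_conj, he0, hδ, one_mul]
  have heδ : e * (δ * z) = (w : ℂ) := by
    have : conj δ * δ = 1 := by rw [Complex.conj_mul', hδ]; simp
    calc e * (δ * z) = (conj δ * δ) * (e0 * z) := by rw [he]; ring
      _ = _ := by rw [this, he0z, one_mul]
  have hkey := fun n => abstract_zero_key C w hw0 hw (x n) (y n) (hx n) K (hy n) (h2 n) e hen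
  have hlim1 : Tendsto (fun n => 2 * (4 * w * K ^ 2 + 2) *
      (w - (e * inner ℂ (x n) (C (x n))).re)) atTop (nhds 0) := by
    have h5 := (h1.const_mul e)
    rw [heδ] at h5
    have h6 := (Complex.continuous_re.tendsto _).comp h5
    rw [Complex.ofReal_re] at h6
    have h7 := (h6.const_sub w).const_mul (2 * (4 * w * K ^ 2 + 2))
    rw [sub_self, mul_zero] at h7
    exact h7
  have hlim2 : Tendsto (fun n => ‖e * inner ℂ (x n) (C (y n)) +
      conj (e * inner ℂ (y n) (C (x n)))‖ ^ 2) atTop (nhds 0) :=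
    squeeze_zero (fun n => by positivity) hkey hlim1
  have hlim3 : Tendsto (fun n => ‖e * inner ℂ (x n) (C (y n)) +
      conj (e * inner ℂ (y n) (C (x n)))‖ ^ 2) atTop (nhds (‖e * c₀‖ ^ 2)) := by
    have h5 := h4.const_mul e
    have h6 := (Complex.continuous_conj.tendsto _).comp (h3.const_mul e)
    have h7 := ((h5.add h6).norm).pow 2
    rw [mul_zero, map_zero, add_zero] at h7
    exact h7
  have h8 := tendsto_nhds_unique hlim3 hlim2
  rw [norm_mul, hen, one_mul] at h8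
  exact norm_eq_zero.1 (pow_eq_zero_iff (two_ne_zero)|>.1 h8)


/-- products of the isometries -/
noncomputable def moP {H : Type*} [NormedAddCommGroup H] [InnerProductSpace ℂ H]
    (M : ℤ → H →ₗᵢ[ℂ] H) (a : ℕ → ℤ) : ℕ → (H →ₗᵢ[ℂ] H)
  | 0 => LinearIsometry.id
  | k + 1 => (moP M a k).comp (M (a k))

theorem moP_succ {H : Type*} [NormedAddCommGroup H] [InnerProductSpace ℂ H]
    (M : ℤ → H →ₗᵢ[ℂ] H) (a : ℕ → ℤ) (k : ℕ) (x : H) :
    moP M a (k + 1) x = moP M a k (M (a k) x) := rfl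

theorem moP_comm {H : Type*} [NormedAddCommGroup H] [InnerProductSpace ℂ H]
    (M : ℤ → H →ₗᵢ[ℂ] H) (hcomm : ∀ m n x, M m (M n x) = M n (M m x)) (a : ℕ → ℤ) (k : ℕ)
    (n : ℤ) (x : H) : moP M a k (M n x) = M n (moP M a k x) := by
  induction k generalizing x with
  | zero => rfl
  | succ k ih => rw [moP_succ, moP_succ, hcomm, ih]

theorem moP_C {H : Type*} [NormedAddCommGroup H] [InnerProductSpace ℂ H]
    (C : H →L[ℂ] H) (M : ℤ → H →ₗᵢ[ℂ] H)
    (hCM : ∀ n x, C (M n x) = M (n - 1) (C x)) (a b : ℕ → ℤ) (hab : ∀ i, b i = a i - 1) (k : ℕ)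
    (x : H) : C (moP M a k x) = moP M b k (C x) := by
  induction k generalizing x with
  | zero => rfl
  | succ k ih => rw [moP_succ, moP_succ, ih, hCM, hab]

theorem moP_shift {H : Type*} [NormedAddCommGroup H] [InnerProductSpace ℂ H]
    (M : ℤ → H →ₗᵢ[ℂ] H) (a b : ℕ → ℤ) (hab : ∀ i, b i = a (i + 1)) (k : ℕ)
    (x : H) : moP M a (k + 1) x = M (a 0) (moP M b k x) := by
  induction k generalizing x with
  | zero => rfl
  | succ k ih => rw [moP_succ, ih, moP_succ, hab]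

/-- TARGET -/
theorem max_orth {H : Type*} [NormedAddCommGroup H] [InnerProductSpace ℂ H]
    (C : H →L[ℂ] H) (M : ℤ → H →ₗᵢ[ℂ] H)
    (hcomm : ∀ m n x, M m (M n x) = M n (M m x))
    (hCM : ∀ n x, C (M n x) = M (n - 1) (C x))
    (γ₁ γ₂ : ℂ) (hγ₁ : ‖γ₁‖ = 1) (hγ₂ : ‖γ₂‖ = 1)
    (hp : ∀ x, Tendsto (fun n : ℕ => M (n : ℤ) x) atTop (nhds (γ₁ • x)))
    (hm : ∀ x, Tendsto (fun n : ℕ => M (-(n : ℤ)) x) atTop (nhds (γ₂ • x)))
    (w : ℝ) (hw : ∀ x, ‖(inner ℂ x (C x) : ℂ)‖ ≤ w * ‖x‖ ^ 2) (f : H) (hf1 : ‖f‖ = 1)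
    (hf : ‖(inner ℂ f (C f) : ℂ)‖ = w) (k : H) (hk : ∀ x, (inner ℂ k (M 1 x) : ℂ) = 0) :
    (inner ℂ (C k) (M 0 f) : ℂ) = 0 := by
  set aU : ℕ → ℤ := fun i => (i : ℤ) + 2 with haU
  set aU' : ℕ → ℤ := fun i => (i : ℤ) + 1 with haU'
  set aD : ℕ → ℤ := fun i => -((i : ℤ) + 1) with haD
  set aD' : ℕ → ℤ := fun i => -((i : ℤ) + 2) with haD'
  have hCU : ∀ n x, C (moP M aU n x) = moP M aU' n (C x) :=
    moP_C C M hCM aU aU' (fun i => by simp only [haU, haU']; ring)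
  have hCD : ∀ n x, C (moP M aD n x) = moP M aD' n (C x) :=
    moP_C C M hCM aD aD' (fun i => by simp only [haD, haD']; ring)
  have hU1 : ∀ (n : ℕ) x, M 1 (moP M aU n x) = moP M aU' n (M ((n : ℤ) + 1) x) := by
    intro n x
    have h1 := moP_shift M aU' aU (fun i => by simp only [haU, haU']; push_cast; ring) n x
    have h2 : aU' 0 = 1 := by simp [haU']
    rw [h2] at h1
    rw [← h1]
    rfl
  have hD1 : ∀ (n : ℕ) x, moP M aD' n (M (-1) x) = moP M aD n (M (-((n : ℤ) + 1)) x) := by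
    intro n x
    have h1 := moP_shift M aD aD' (fun i => by simp only [haD, haD']; push_cast; ring) n x
    have h2 : aD 0 = -1 := by simp [haD]
    rw [h2] at h1
    rw [moP_comm M hcomm, ← h1]
    rfl
  have hinn : ∀ (L : H →ₗᵢ[ℂ] H) (a b : H), (inner ℂ (L a) (L b) : ℂ) = inner ℂ a b :=
    fun L a b => L.inner_map_map a b
  -- limits
  have hp1 : ∀ x, Tendsto (fun n : ℕ => M ((n : ℤ) + 1) x) atTop (nhds (γ₁ • x)) := by
    intro x
    have := (tendsto_add_atTop_iff_nat 1).2 (hp x)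
    refine this.congr fun n => ?_
    push_cast
    rfl
  have hm1 : ∀ x, Tendsto (fun n : ℕ => M (-((n : ℤ) + 1)) x) atTop (nhds (γ₂ • x)) := by
    intro x
    have := (tendsto_add_atTop_iff_nat 1).2 (hm x)
    refine this.congr fun n => ?_
    push_cast
    rfl
  set xs : ℕ → H := fun n => moP M aD n (M 0 (M 1 (moP M aU n f))) with hxs
  set ys : ℕ → H := fun n => moP M aD n (M 0 (moP M aU n k)) with hys
  have hCx : ∀ n, C (xs n) = moP M aD n (M (-((n : ℤ) + 1)) (M 0 (moP M aU' n (C f)))) := by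
    intro n
    simp only [hxs]
    rw [hCD, hCM, hCM, hCU, ← hD1]
    norm_num
  have hCy : ∀ n, C (ys n) = moP M aD n (M (-((n : ℤ) + 1)) (moP M aU' n (C k))) := by
    intro n
    simp only [hys]
    rw [hCD, hCM, hCU, ← hD1]
    norm_num
  have hxs2 : ∀ n, xs n = moP M aD n (M 0 (moP M aU' n (M ((n : ℤ) + 1) f))) := by
    intro n
    simp only [hxs]
    rw [hU1]
  have key := abstract_zero C w hw f hf xs ys (fun n => by
      simp only [hxs]
      rw [LinearIsometry.norm_map, LinearIsometry.norm_map, LinearIsometry.norm_map,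
        LinearIsometry.norm_map, hf1]) ‖k‖ (fun n => by
      simp only [hys]
      rw [LinearIsometry.norm_map, LinearIsometry.norm_map, LinearIsometry.norm_map])
    (conj γ₁ * γ₂) (conj γ₁ * γ₂ * inner ℂ (M 0 f) (C k)) (by
      rw [norm_mul, RCLike.norm_conj, hγ₁, hγ₂, one_mul]) ?_ ?_ ?_ ?_
  · have h1 : (inner ℂ (M 0 f) (C k) : ℂ) = 0 := by
      have h2 : conj γ₁ * γ₂ ≠ 0 := by
        intro h
        have := congrArg norm h
        rw [norm_mul, RCLike.norm_conj, hγ₁, hγ₂, one_mul, norm_zero] at this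
        exact one_ne_zero this
      exact (mul_eq_zero.1 key).resolve_left h2
    rw [← inner_conj_symm, h1, map_zero]
  · -- h1
    have h1 : Tendsto (fun n : ℕ => (inner ℂ (M ((n : ℤ) + 1) f) (M (-((n : ℤ) + 1)) (C f)) : ℂ))
        atTop (nhds (inner ℂ (γ₁ • f) (γ₂ • C f))) := (hp1 f).inner (hm1 (C f))
    rw [inner_smul_left, inner_smul_right, ← mul_assoc] at h1
    refine h1.congr fun n => ?_
    rw [hCx, hxs2, hinn, hcomm (-((n : ℤ) + 1)) 0, hinn, ← moP_comm M hcomm, hinn]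
  · intro n
    simp only [hxs, hys]
    rw [hinn, hinn, ← moP_comm M hcomm, hinn]
    exact hk f
  · have h1 : Tendsto (fun n : ℕ => (inner ℂ (M ((n : ℤ) + 1) k)
        (M 1 (M (-((n : ℤ) + 1)) (C f))) : ℂ))
        atTop (nhds (inner ℂ (γ₁ • k) (M 1 (γ₂ • C f)))) :=
      (hp1 k).inner (((M 1).continuous.tendsto _).comp (hm1 (C f)))
    rw [map_smul, inner_smul_left, inner_smul_right, hk, mul_zero, mul_zero] at h1
    refine h1.congr fun n => ?_
    rw [hCx]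
    simp only [hys]
    rw [hinn, hcomm (-((n : ℤ) + 1)) 0, hinn, ← hinn (M 1) (moP M aU n k), hU1,
      ← moP_comm M hcomm, ← moP_comm M hcomm, hinn]
  · have h1 : Tendsto (fun n : ℕ => (inner ℂ (M 0 (M ((n : ℤ) + 1) f))
        (M (-((n : ℤ) + 1)) (C k)) : ℂ))
        atTop (nhds (inner ℂ (M 0 (γ₁ • f)) (γ₂ • C k))) :=
      (((M 0).continuous.tendsto _).comp (hp1 f)).inner (hm1 (C k))
    rw [map_smul, inner_smul_left, inner_smul_right, ← mul_assoc] at h1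
    refine h1.congr fun n => ?_
    rw [hCy, hxs2, hinn, ← moP_comm M hcomm, ← moP_comm M hcomm, hinn]

theorem sqrt_le_of_growth {H : Type*} [NormedAddCommGroup H] [InnerProductSpace ℂ H]
    [CompleteSpace H] (C : H →L[ℂ] H) (w : ℝ)
    (hw : ∀ x, ‖(inner ℂ x (C x) : ℂ)‖ ≤ w * ‖x‖ ^ 2)
    (lam : ℝ) (hlam : 1 < lam) (κ : ℝ) (hκ : 0 < κ) (v : H)
    (hgrow : ∀ n : ℕ, κ * lam ^ n ≤ ‖((ContinuousLinearMap.adjoint C) ^ n) v‖ ^ 2) :
    Real.sqrt lam ≤ w := by
  have hv2 : 0 < ‖v‖ ^ 2 := by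
    have h := hgrow 0
    rw [pow_zero, mul_one, pow_zero] at h
    exact lt_of_lt_of_le hκ h
  have hw0 : 0 ≤ w := by
    by_contra hcon
    push Not at hcon
    have h := (norm_nonneg _).trans (hw v)
    nlinarith
  -- the spectral radius
  have hrad : spectralRadius ℂ C ≤ ENNReal.ofReal w := by
    unfold spectralRadius
    refine iSup₂_le fun μ hμ => ?_
    by_contra hcon
    push Not at hcon
    have hμw : w < ‖μ‖ := by
      rw [← ENNReal.ofReal_coe_nnreal, coe_nnnorm] at hcon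
      exact (ENNReal.ofReal_lt_ofReal_iff_of_nonneg hw0).1 hcon
    rw [spectrum.mem_iff] at hμ
    apply hμ
    refine ContinuousLinearMap.isUnit_of_forall_le_norm_inner_map _
      (c := ⟨‖μ‖ - w, by linarith⟩) (by
        show (0 : ℝ) < ‖μ‖ - w
        linarith) fun x => ?_
    show ‖x‖ ^ 2 * (‖μ‖ - w) ≤ _
    have h1 : inner ℂ ((algebraMap ℂ (H →L[ℂ] H) μ - C) x) x =
        (starRingEnd ℂ) μ * inner ℂ x x - inner ℂ (C x) x := by
      rw [sub_apply, inner_sub_left, Algebra.algebraMap_eq_smul_one,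
        smul_apply, one_apply_eq_self, inner_smul_left]
    rw [h1]
    have h2 : ‖(starRingEnd ℂ) μ * (inner ℂ x x : ℂ)‖ = ‖μ‖ * ‖x‖ ^ 2 := by
      rw [norm_mul, RCLike.norm_conj, inner_self_eq_norm_sq_to_K, norm_pow]
      simp
    have h3 : ‖(inner ℂ (C x) x : ℂ)‖ ≤ w * ‖x‖ ^ 2 := by
      rw [norm_inner_symm]
      exact hw x
    have h4 := norm_sub_norm_le ((starRingEnd ℂ) μ * (inner ℂ x x : ℂ)) (inner ℂ (C x) x)
    rw [h2] at h4
    nlinarith
  by_contra hcon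
  push Not at hcon
  obtain ⟨r, hr1, hr2⟩ := exists_between hcon
  have hr0 : 0 < r := lt_of_le_of_lt hw0 hr1
  have hlim := spectrum.pow_norm_pow_one_div_tendsto_nhds_spectralRadius C
  have hlt : spectralRadius ℂ C < ENNReal.ofReal r :=
    lt_of_le_of_lt hrad ((ENNReal.ofReal_lt_ofReal_iff hr0).2 hr1)
  have hev := hlim.eventually_lt_const hlt
  have hr2' : r ^ 2 < lam := by
    have h := Real.sq_sqrt (by linarith : (0 : ℝ) ≤ lam)
    rw [← h]
    exact pow_lt_pow_left₀ hr2 hr0.le two_ne_zero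
  have hbig : Tendsto (fun n : ℕ => (lam / r ^ 2) ^ n) atTop atTop :=
    tendsto_pow_atTop_atTop_of_one_lt ((one_lt_div (by positivity)).2 hr2')
  obtain ⟨n, ⟨hn1, hn2⟩, hn3⟩ := ((hev.and (hbig.eventually_gt_atTop (‖v‖ ^ 2 / κ))).and
    (eventually_ge_atTop 1)).exists
  have hn0 : n ≠ 0 := by omega
  have h1 : ‖C ^ n‖ ≤ r ^ n := by
    have h2 : ‖C ^ n‖ ^ (1 / n : ℝ) < r := (ENNReal.ofReal_lt_ofReal_iff hr0).1 hn1
    rw [one_div] at h2
    have h3 := Real.rpow_inv_natCast_pow (norm_nonneg (C ^ n)) hn0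
    rw [← h3]
    exact pow_le_pow_left₀ (by positivity) h2.le n
  have h2 : ‖(ContinuousLinearMap.adjoint C) ^ n‖ = ‖C ^ n‖ := by
    rw [← ContinuousLinearMap.star_eq_adjoint, ← star_pow, norm_star]
  have h3 : ‖((ContinuousLinearMap.adjoint C) ^ n) v‖ ≤ r ^ n * ‖v‖ := by
    refine (ContinuousLinearMap.le_opNorm _ _).trans ?_
    rw [h2]
    exact mul_le_mul_of_nonneg_right h1 (norm_nonneg _)
  have h4 : κ * lam ^ n ≤ (r ^ n * ‖v‖) ^ 2 :=
    (hgrow n).trans (pow_le_pow_left₀ (norm_nonneg _) h3 2)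
  rw [div_pow, div_lt_div_iff₀ hκ (by positivity)] at hn2
  have h5 : (r ^ n * ‖v‖) ^ 2 = ‖v‖ ^ 2 * (r ^ 2) ^ n := by ring
  rw [h5] at h4
  linarith


/-- the weight -/
noncomputable def A15457 (b s : ℂ) : ℝ := ‖s - b‖ * ‖s - conj b‖

theorem shift15457 (u : ℂ) (t δ : ℝ) (hδ : 0 < δ) (hu : δ ≤ ‖u‖) : ‖u + t‖ ≤ (1 + |t| / δ) * ‖u‖ := by
  have h1 : ‖u + t‖ ≤ ‖u‖ + |t| := by
    refine (norm_add_le _ _).trans ?_
    rw [Complex.norm_real, Real.norm_eq_abs]
  have h2 : |t| ≤ |t| / δ * ‖u‖ := by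
    calc |t| = |t| / δ * δ := by field_simp
      _ ≤ |t| / δ * ‖u‖ := mul_le_mul_of_nonneg_left hu (by positivity)
  linarith

theorem low15457 (b s : ℂ) (δ : ℝ) (hb : 0 < b.im) (hs : b.im + δ ≤ s.im) :
    δ ≤ ‖s - b‖ ∧ δ ≤ ‖s - conj b‖ := by
  constructor
  · have := Complex.im_le_norm (s - b)
    rw [Complex.sub_im] at this
    linarith
  · have := Complex.im_le_norm (s - conj b)
    rw [Complex.sub_im, Complex.conj_im] at this
    linarith

theorem Ashift15457 (b s : ℂ) (t δ : ℝ) (hδ : 0 < δ) (hb : 0 < b.im) (hs : b.im + δ ≤ s.im) :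
    √(A15457 b (s + t)) ≤ (1 + |t| / δ) * √(A15457 b s) := by
  obtain ⟨h1, h2⟩ := low15457 b s δ hb hs
  have e1 := shift15457 (s - b) t δ hδ h1
  have e2 := shift15457 (s - conj b) t δ hδ h2
  have hc : 0 ≤ 1 + |t| / δ := by positivity
  have e3 : A15457 b (s + t) ≤ (1 + |t| / δ) ^ 2 * A15457 b s := by
    unfold A15457
    have f1 : s + t - b = s - b + t := by ring
    have f2 : s + t - conj b = s - conj b + t := by ring
    rw [f1, f2]
    calc ‖s - b + t‖ * ‖s - conj b + t‖ ≤ ((1 + |t| / δ) * ‖s - b‖) * ((1 + |t| / δ) * ‖s - conj b‖) :=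
          mul_le_mul e1 e2 (norm_nonneg _) (by positivity)
      _ = _ := by ring
  calc √(A15457 b (s + t)) ≤ √((1 + |t| / δ) ^ 2 * A15457 b s) := Real.sqrt_le_sqrt e3
    _ = (1 + |t| / δ) * √(A15457 b s) := by
      rw [Real.sqrt_mul (by positivity), Real.sqrt_sq hc]

theorem line_zero (t : ℝ) (b : ℂ) (hb : 0 < b.im) (ε : ℂ) (hε : ‖ε‖ = 1)
    (w : ℝ) (hw : 1 < w) (h : ℂ → ℂ) (K : ℝ)
    (hK : ∀ s : ℂ, 0 < s.im → ‖h s‖ ^ 2 ≤ K * ‖s - conj b‖ ^ 2 / s.im)
    (heq : ∀ s : ℂ, 0 < s.im → s - t ≠ b →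
      ε * h (s + t) + conj ε * (((s - b) * (s - conj b)) /
        ((s - t - b) * (s - t - conj b)) * h (s - t)) = 2 * w * h s) :
    ∃ Y : ℝ, 0 < Y ∧ ∀ s : ℂ, Y ≤ s.im → h s = 0 := by
  set δ : ℝ := |t| / (w - 1) + 1 with hδdef
  have hw1 : 0 < w - 1 := by linarith
  have hδ : 0 < δ := by positivity
  set c : ℝ := 1 + |t| / δ with hc
  have hcw : c < w := by
    have : |t| / δ < w - 1 := by
      rw [div_lt_iff₀ hδ, hδdef, mul_add, mul_div_cancel₀ _ hw1.ne']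
      linarith
    linarith
  have hc0 : 0 < c := by positivity
  set Y : ℝ := b.im + δ with hY
  have hY0 : 0 < Y := by positivity
  refine ⟨Y, hY0, ?_⟩
  -- initial bound
  have hinit : ∃ B : ℝ, 0 ≤ B ∧ ∀ s : ℂ, Y ≤ s.im → ‖h s‖ ≤ B * √(A15457 b s) := by
    refine ⟨√(|K| * (1 + 2 * b.im / δ) / Y), Real.sqrt_nonneg _, fun s hs => ?_⟩
    have hs0 : 0 < s.im := lt_of_lt_of_le hY0 hs
    obtain ⟨l1, l2⟩ := low15457 b s δ hb hs
    rw [← Real.sqrt_mul (by positivity)]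
    apply Real.le_sqrt_of_sq_le
    have e1 : ‖s - conj b‖ ≤ (1 + 2 * b.im / δ) * ‖s - b‖ := by
      have h1 : ‖s - conj b‖ ≤ ‖s - b‖ + 2 * b.im := by
        have e : s - conj b = (s - b) + (b - conj b) := by ring
        rw [e]
        refine (norm_add_le _ _).trans ?_
        have e2 : b - conj b = ((2 * b.im : ℝ) : ℂ) * Complex.I := by
          rw [Complex.sub_conj]
        rw [e2, norm_mul, Complex.norm_I, mul_one, Complex.norm_real, Real.norm_of_nonneg (by positivity)]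
      have h2 : 2 * b.im ≤ 2 * b.im / δ * ‖s - b‖ := by
        calc 2 * b.im = 2 * b.im / δ * δ := by field_simp
          _ ≤ 2 * b.im / δ * ‖s - b‖ := mul_le_mul_of_nonneg_left l1 (by positivity)
      linarith
    calc ‖h s‖ ^ 2 ≤ K * ‖s - conj b‖ ^ 2 / s.im := hK s hs0
      _ ≤ |K| * ‖s - conj b‖ ^ 2 / s.im := by
        apply div_le_div_of_nonneg_right _ hs0.le
        exact mul_le_mul_of_nonneg_right (le_abs_self K) (by positivity)
      _ ≤ |K| * ‖s - conj b‖ ^ 2 / Y := div_le_div_of_nonneg_left (by positivity) hY0 hs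
      _ ≤ |K| * ((1 + 2 * b.im / δ) * A15457 b s) / Y := by
        apply div_le_div_of_nonneg_right _ hY0.le
        apply mul_le_mul_of_nonneg_left _ (abs_nonneg K)
        unfold A15457
        calc ‖s - conj b‖ ^ 2 = ‖s - conj b‖ * ‖s - conj b‖ := by ring
          _ ≤ ((1 + 2 * b.im / δ) * ‖s - b‖) * ‖s - conj b‖ := mul_le_mul_of_nonneg_right e1 (norm_nonneg _)
          _ = _ := by ring
      _ = |K| * (1 + 2 * b.im / δ) / Y * A15457 b s := by ring
  -- improvement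
  have himp : ∀ B : ℝ, 0 ≤ B → (∀ s : ℂ, Y ≤ s.im → ‖h s‖ ≤ B * √(A15457 b s)) →
      ∀ s : ℂ, Y ≤ s.im → ‖h s‖ ≤ (c / w * B) * √(A15457 b s) := by
    intro B hB hBs s hs
    have hs0 : 0 < s.im := lt_of_lt_of_le hY0 hs
    have him : (s - t).im = s.im := by simp
    have hip : (s + t).im = s.im := by simp
    have hne : s - t ≠ b := by
      intro h1
      have : s.im = b.im := by rw [← him, h1]
      linarith
    have h1 := heq s hs0 hne
    have h2 : 2 * w * ‖h s‖ ≤ ‖h (s + t)‖ + A15457 b s / A15457 b (s - t) * ‖h (s - t)‖ := by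
      have h3 : 2 * w * ‖h s‖ = ‖(2 * w * h s : ℂ)‖ := by
        rw [norm_mul, norm_mul, Complex.norm_real, Real.norm_of_nonneg (by linarith : 0 ≤ w)]
        simp
      rw [h3, ← h1]
      refine (norm_add_le _ _).trans ?_
      rw [norm_mul, norm_mul, RCLike.norm_conj, hε, one_mul, one_mul, norm_mul, norm_div, norm_mul, norm_mul]
      exact le_rfl
    obtain ⟨l1, l2⟩ := low15457 b (s - t) δ hb (by rw [him]; exact hs)
    have hApos : 0 < A15457 b (s - t) := mul_pos (lt_of_lt_of_le hδ l1) (lt_of_lt_of_le hδ l2)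
    have hA0 : 0 ≤ A15457 b s := by unfold A15457; positivity
    have g1 : ‖h (s + t)‖ ≤ B * (c * √(A15457 b s)) :=
      (hBs (s + t) (by rw [hip]; exact hs)).trans (mul_le_mul_of_nonneg_left (Ashift15457 b s t δ hδ hb hs) hB)
    have g2 : A15457 b s / A15457 b (s - t) * ‖h (s - t)‖ ≤ B * (c * √(A15457 b s)) := by
      have g3 := hBs (s - t) (by rw [him]; exact hs)
      have g4 := Ashift15457 b (s - t) t δ hδ hb (by rw [him]; exact hs)
      rw [sub_add_cancel] at g4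
      have hsp : 0 < √(A15457 b (s - t)) := Real.sqrt_pos.mpr hApos
      have hq : √(A15457 b (s - t)) * √(A15457 b (s - t)) = A15457 b (s - t) := Real.mul_self_sqrt hApos.le
      have hq2 : √(A15457 b s) * √(A15457 b s) = A15457 b s := Real.mul_self_sqrt hA0
      calc A15457 b s / A15457 b (s - t) * ‖h (s - t)‖
          ≤ A15457 b s / A15457 b (s - t) * (B * √(A15457 b (s - t))) :=
            mul_le_mul_of_nonneg_left g3 (by positivity)
        _ = B * (√(A15457 b s) * (√(A15457 b s) / √(A15457 b (s - t)))) := by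
            have hdiv : A15457 b s / A15457 b (s - t) =
                (√(A15457 b s) * √(A15457 b s)) / (√(A15457 b (s - t)) * √(A15457 b (s - t))) := by
              rw [hq, hq2]
            rw [hdiv]
            field_simp
        _ ≤ B * (√(A15457 b s) * c) := by
            apply mul_le_mul_of_nonneg_left _ hB
            apply mul_le_mul_of_nonneg_left _ (Real.sqrt_nonneg _)
            rw [div_le_iff₀ hsp]
            exact g4
        _ = B * (c * √(A15457 b s)) := by ring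
    have hw0 : 0 < w := by linarith
    have g5 : w * ‖h s‖ ≤ B * (c * √(A15457 b s)) := by linarith
    calc ‖h s‖ = (w * ‖h s‖) / w := by field_simp
      _ ≤ (B * (c * √(A15457 b s))) / w := div_le_div_of_nonneg_right g5 hw0.le
      _ = (c / w * B) * √(A15457 b s) := by ring
  obtain ⟨B, hB, hBs⟩ := hinit
  have hall : ∀ n : ℕ, ∀ s : ℂ, Y ≤ s.im → ‖h s‖ ≤ ((c / w) ^ n * B) * √(A15457 b s) := by
    intro n
    induction n with
    | zero => simpa using hBs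
    | succ k ih =>
      have h1 := himp ((c / w) ^ k * B) (by positivity) ih
      intro s hs
      have := h1 s hs
      rw [pow_succ']
      linarith [this, mul_assoc (c / w) ((c / w) ^ k) B]
  intro s hs
  have hr : c / w < 1 := by rw [div_lt_one (by linarith)]; exact hcw
  have hlim : Tendsto (fun n : ℕ => ((c / w) ^ n * B) * √(A15457 b s)) atTop (nhds ((0 * B) * √(A15457 b s))) :=
    ((tendsto_pow_atTop_nhds_zero_of_lt_one (by positivity) hr).mul_const B).mul_const _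
  have hle := ge_of_tendsto' hlim (fun n => hall n s hs)
  rw [zero_mul, zero_mul] at hle
  exact norm_le_zero_iff.mp hle


end F96
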