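import Pool.Agent.Helper368.F96.Core

open scoped ComplexConjugate
open Filter

namespace F96

theorem core (ω u ub p pb c D lam t s : ℂ) (hp : p = ω * (1 - ub)) (hpb : pb * ω = 1 - u)
    (hc : c * ub = u) (hub : ub ≠ 0) (hD0 : D ≠ 0) (hD : D = u + ub - u * ub)
    (hlam : lam * D = u * ub) (ht : t * D = Complex.I * (ub - u)) (hs : s + Complex.I ≠ 0)
    (hs' : lam * s + t + Complex.I ≠ 0) :
    c * ((ω * ((s - Complex.I) / (s + Complex.I)) - p) /
      (1 - pb * (ω * ((s - Complex.I) / (s + Complex.I))))) =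
    ω * ((lam * s + t - Complex.I) / (lam * s + t + Complex.I)) := by
  have n : D * (lam * s + t - Complex.I) = u * (ub * (s + Complex.I) - 2 * Complex.I) := by
    linear_combination s * hlam + ht - Complex.I * hD
  have d : D * (lam * s + t + Complex.I) = ub * (u * (s - Complex.I) + 2 * Complex.I) := by
    linear_combination s * hlam + ht + Complex.I * hD
  have d0 : u * (s - Complex.I) + 2 * Complex.I ≠ 0 := by
    intro h
    rw [h, mul_zero] at d
    exact (mul_ne_zero hD0 hs') d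
  have e1 : ω * ((s - Complex.I) / (s + Complex.I)) - p =
      (ω * (ub * (s + Complex.I) - 2 * Complex.I)) / (s + Complex.I) := by
    rw [hp, eq_div_iff hs, sub_mul, mul_assoc ω, div_mul_cancel₀ _ hs]
    ring
  have e2 : 1 - pb * (ω * ((s - Complex.I) / (s + Complex.I))) =
      (u * (s - Complex.I) + 2 * Complex.I) / (s + Complex.I) := by
    rw [← mul_assoc, hpb, eq_div_iff hs, sub_mul, mul_assoc, div_mul_cancel₀ _ hs]
    ring
  rw [e1, e2, div_div_div_cancel_right₀ hs, ← mul_div_assoc, ← mul_div_assoc,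
    div_eq_div_iff d0 hs']
  refine mul_left_cancel₀ (mul_ne_zero hD0 hub) ?_
  linear_combination (c * (ω * (ub * (s + Complex.I) - 2 * Complex.I)) * ub) * d
    - (ω * (u * (s - Complex.I) + 2 * Complex.I) * ub) * n
    + (ω * (ub * (s + Complex.I) - 2 * Complex.I)) * (ub * (u * (s - Complex.I) + 2 * Complex.I)) * hc

theorem exists_om (c p : ℂ) (hc : ‖c‖ = 1) (hp : ‖p‖ < 1)
    (hfix : ∀ z : ℂ, ‖z‖ < 1 → c * ((z - p) / (1 - conj p * z)) ≠ z) :
    ∃ ω : ℂ, ‖ω‖ = 1 ∧ c * (ω - p) = ω * (1 - conj p * ω) := by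
  have hp0 : p ≠ 0 := by
    intro h
    apply hfix 0 (by simp)
    simp [h]
  have hpb : conj p ≠ 0 := by simpa using hp0
  have hnofix : ∀ z : ℂ, ‖z‖ < 1 → c * (z - p) ≠ z * (1 - conj p * z) := by
    intro z hz h
    have hne : 1 - conj p * z ≠ 0 := by
      intro h0
      have h1 : conj p * z = 1 := by linear_combination -h0
      have h2 : ‖conj p * z‖ = 1 := by rw [h1]; simp
      rw [norm_mul, RCLike.norm_conj] at h2
      have h3 : ‖p‖ * ‖z‖ < 1 := by
        have := norm_nonneg p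
        have := norm_nonneg z
        nlinarith
      linarith
    apply hfix z hz
    rw [← mul_div_assoc, h, mul_div_assoc, div_self hne, mul_one]
  obtain ⟨r, hr⟩ := IsAlgClosed.exists_pow_nat_eq ((c - 1) ^ 2 + 4 * conj p * (c * p))
    (n := 2) (by norm_num)
  obtain ⟨ω, hω⟩ : ∃ ω : ℂ, ω = (-(c - 1) + r) / (2 * conj p) := ⟨_, rfl⟩
  have hroot : conj p * ω ^ 2 + (c - 1) * ω - c * p = 0 := by
    rw [hω]
    field_simp
    linear_combination hr
  have hω0 : ω ≠ 0 := by
    intro h
    rw [h] at hroot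
    have : c * p = 0 := by linear_combination -hroot
    have hc0 : c ≠ 0 := by
      intro h; rw [h] at hc; simp at hc
    exact (mul_ne_zero hc0 hp0) this
  have e0 : c * (ω - p) = ω * (1 - conj p * ω) := by linear_combination hroot
  refine ⟨ω, ?_, e0⟩
  rcases lt_trichotomy ‖ω‖ 1 with h | h | h
  · exact absurd e0 (hnofix ω h)
  · exact h
  · exfalso
    obtain ⟨v, hv⟩ : ∃ v : ℂ, v = -(c * p) / (conj p * ω) := ⟨_, rfl⟩
    have hvn : ‖v‖ < 1 := by
      rw [hv, norm_div, norm_neg, norm_mul, norm_mul, RCLike.norm_conj, hc, one_mul]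
      have hpp : 0 < ‖p‖ := norm_pos_iff.2 hp0
      rw [div_lt_one (by positivity)]
      nlinarith
    apply hnofix v hvn
    have hvv : v * (conj p * ω) = -(c * p) := by
      rw [hv, div_mul_cancel₀ _ (mul_ne_zero hpb hω0)]
    -- p̄ v^2 + (c-1) v - c p = 0 ; multiply by p̄ ω^2
    have key : (conj p * ω ^ 2) * (c * (v - p) - v * (1 - conj p * v)) = 0 := by
      have h1 : (conj p * ω ^ 2) * (c * (v - p) - v * (1 - conj p * v)) =
        (v * (conj p * ω)) ^ 2 + (c - 1) * ω * (v * (conj p * ω)) - c * p * conj p * ω ^ 2 := by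
        ring
      rw [h1, hvv]
      linear_combination -(c * p) * hroot
    have h2 := (mul_eq_zero.1 key).resolve_left (mul_ne_zero hpb (pow_ne_zero 2 hω0))
    linear_combination h2

theorem im_pos_ne (s : ℂ) (hs : 0 < s.im) : s + Complex.I ≠ 0 := by
  intro h
  have := congrArg Complex.im h
  simp at this
  linarith

theorem pre (c p : ℂ) (hc : ‖c‖ = 1) (hp : ‖p‖ < 1)
    (hfix : ∀ z : ℂ, ‖z‖ < 1 → c * ((z - p) / (1 - conj p * z)) ≠ z) :
    ∃ ω : ℂ, ‖ω‖ = 1 ∧ ∃ lam t : ℝ, 0 < lam ∧ (lam = 1 → t ≠ 0) ∧ ∀ s : ℂ, 0 < s.im →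
      c * ((ω * ((s - Complex.I) / (s + Complex.I)) - p) /
      (1 - conj p * (ω * ((s - Complex.I) / (s + Complex.I))))) =
    ω * ((lam * s + t - Complex.I) / (lam * s + t + Complex.I)) := by
  obtain ⟨ω, hω, e0⟩ := exists_om c p hc hp hfix
  obtain ⟨u, hu⟩ : ∃ u : ℂ, u = 1 - conj p * ω := ⟨_, rfl⟩
  have hωω : ω * conj ω = 1 := by
    rw [Complex.mul_conj, Complex.normSq_eq_norm_sq, hω]; norm_num
  have hω0 : ω ≠ 0 := by intro h; rw [h] at hω; simp at hω
  have hub : conj u = 1 - p * conj ω := by rw [hu]; simp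
  have hu0 : u ≠ 0 := by
    intro h
    rw [h] at hu
    have h1 : conj p * ω = 1 := by linear_combination hu
    have h2 : ‖conj p * ω‖ = 1 := by rw [h1]; simp
    rw [norm_mul, RCLike.norm_conj, hω, mul_one] at h2
    linarith
  have hub0 : conj u ≠ 0 := by simpa using hu0
  have hpe : p = ω * (1 - conj u) := by
    rw [hub]
    linear_combination -p * hωω
  have hcu : c * conj u = u := by
    refine mul_left_cancel₀ hω0 ?_
    rw [hub]
    have : ω * (c * (1 - p * conj ω)) = c * (ω - p * (ω * conj ω)) := by ring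
    rw [this, hωω, mul_one, e0, hu]
  have hpb : conj p * ω = 1 - u := by rw [hu]; ring
  have hDr : (0:ℝ) < 1 - ‖p‖ ^ 2 := by
    have := norm_nonneg p
    nlinarith
  have hDC : (((1 - ‖p‖ ^ 2 : ℝ)) : ℂ) = u + conj u - u * conj u := by
    have h1 : p * conj p = ((‖p‖ ^ 2 : ℝ) : ℂ) := by
      rw [Complex.mul_conj, Complex.normSq_eq_norm_sq]
    push_cast at h1 ⊢
    rw [← h1, hub, hu]
    linear_combination (p * conj p) * hωω
  have hD0 : (((1 - ‖p‖ ^ 2 : ℝ)) : ℂ) ≠ 0 := by exact_mod_cast hDr.ne'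
  have hlam0 : 0 < ‖u‖ ^ 2 / (1 - ‖p‖ ^ 2) := by
    have := norm_pos_iff.2 hu0
    positivity
  have main : ∀ s : ℂ, 0 < s.im →
      c * ((ω * ((s - Complex.I) / (s + Complex.I)) - p) /
      (1 - conj p * (ω * ((s - Complex.I) / (s + Complex.I))))) =
    ω * (((‖u‖ ^ 2 / (1 - ‖p‖ ^ 2) : ℝ) * s + (2 * u.im / (1 - ‖p‖ ^ 2) : ℝ) - Complex.I) /
      ((‖u‖ ^ 2 / (1 - ‖p‖ ^ 2) : ℝ) * s + (2 * u.im / (1 - ‖p‖ ^ 2) : ℝ) + Complex.I)) := by
    intro s hs
    refine core ω u (conj u) p (conj p) c (((1 - ‖p‖ ^ 2 : ℝ)) : ℂ) _ _ s hpe hpb hcu hub0 hD0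
      hDC ?_ ?_ (im_pos_ne s hs) ?_
    · rw [← Complex.ofReal_mul, div_mul_cancel₀ _ hDr.ne', Complex.mul_conj,
        Complex.normSq_eq_norm_sq]
    · rw [← Complex.ofReal_mul, div_mul_cancel₀ _ hDr.ne']
      apply Complex.ext
      · simp
        ring
      · simp
    · apply im_pos_ne
      rw [Complex.add_im, Complex.im_ofReal_mul, Complex.ofReal_im, add_zero]
      exact mul_pos hlam0 hs
  refine ⟨ω, hω, ‖u‖ ^ 2 / (1 - ‖p‖ ^ 2), 2 * u.im / (1 - ‖p‖ ^ 2), hlam0, ?_, main⟩
  intro h1 h2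
  have h3 := main Complex.I (by simp)
  rw [h1, h2] at h3
  apply hfix 0 (by simp)
  simpa using h3

theorem classify (c p : ℂ) (hc : ‖c‖ = 1) (hp : ‖p‖ < 1)
    (hfix : ∀ z : ℂ, ‖z‖ < 1 → c * ((z - p) / (1 - conj p * z)) ≠ z) :
    ∃ η b : ℂ, ‖η‖ = 1 ∧ 0 < b.im ∧ ∃ lam t : ℝ,
      ((1 < lam ∧ t = 0) ∨ (lam = 1 ∧ t ≠ 0)) ∧
      ∀ s : ℂ, 0 < s.im →
        c * ((zt η b s - p) / (1 - conj p * zt η b s)) = zt η b (lam * s + t) := by
  obtain ⟨ω, hω, lam, t, hlam, hlt, main⟩ := pre c p hc hp hfix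
  rcases lt_trichotomy lam 1 with h | h | h
  · -- lam < 1
    obtain ⟨x, hx⟩ : ∃ x : ℝ, x = t / (1 - lam) := ⟨_, rfl⟩
    have hxe : lam * x + t = x := by
      rw [hx]; field_simp [(sub_pos.2 h).ne']; ring
    have hxm : (x:ℂ) - Complex.I ≠ 0 := by
      intro h
      have := congrArg Complex.im h
      simp at this
    have hxp : (x:ℂ) + Complex.I ≠ 0 := by
      intro h
      have := congrArg Complex.im h
      simp at this
    refine ⟨conj (ω * ((x - Complex.I) / (x + Complex.I))), 1 / (x - Complex.I), ?_, ?_,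
      1 / lam, 0, Or.inl ⟨?_, rfl⟩, ?_⟩
    · rw [RCLike.norm_conj, norm_mul, hω, norm_div, one_mul]
      have : ‖(x:ℂ) - Complex.I‖ = ‖(x:ℂ) + Complex.I‖ := by
        rw [← RCLike.norm_conj]
        simp
      rw [this, div_self (norm_ne_zero_iff.2 hxp)]
    · rw [one_div, Complex.inv_im]
      have : 0 < Complex.normSq ((x:ℂ) - Complex.I) := Complex.normSq_pos.2 hxm
      apply div_pos _ this
      simp
    · rw [one_div]
      exact (one_lt_inv₀ hlam).2 h
    · intro s hs
      have hs0 : s ≠ 0 := by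
        intro h; rw [h] at hs; simp at hs
      have hztf : ∀ w : ℂ, 0 < w.im → zt (conj (ω * ((x - Complex.I) / (x + Complex.I))))
          (1 / (x - Complex.I)) w =
          ω * (((x - 1 / w) - Complex.I) / ((x - 1 / w) + Complex.I)) := by
        intro w hw
        have hw0 : w ≠ 0 := by
          intro h; rw [h] at hw; simp at hw
        have him : 0 < ((x:ℂ) - 1 / w).im := by
          rw [one_div, Complex.sub_im, Complex.inv_im, Complex.ofReal_im]
          have : 0 < Complex.normSq w := Complex.normSq_pos.2 hw0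
          have := div_pos hw this
          rw [neg_div]; linarith
        have h1 := im_pos_ne _ him
        have h2 : w - 1 / ((x:ℂ) + Complex.I) ≠ 0 := by
          intro h
          apply h1
          have h3 : w = 1 / ((x:ℂ) + Complex.I) := by linear_combination h
          rw [h3]
          field_simp
          ring
        unfold zt
        rw [Complex.conj_conj]
        have e : conj (1 / ((x:ℂ) - Complex.I)) = 1 / ((x:ℂ) + Complex.I) := by simp
        rw [e]
        have e1 : (x:ℂ) - 1 / w - Complex.I = ((x:ℂ) - Complex.I) * (w - 1 / ((x:ℂ) - Complex.I)) / w := by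
          field_simp
          ring
        have e2 : (x:ℂ) - 1 / w + Complex.I = ((x:ℂ) + Complex.I) * (w - 1 / ((x:ℂ) + Complex.I)) / w := by
          field_simp
          ring
        rw [e1, e2, div_div_div_cancel_right₀ hw0, mul_div_mul_comm, mul_assoc]
      have hims : 0 < ((x:ℂ) - 1 / s).im := by
        rw [one_div, Complex.sub_im, Complex.inv_im, Complex.ofReal_im]
        have : 0 < Complex.normSq s := Complex.normSq_pos.2 hs0
        have := div_pos hs this
        rw [neg_div]; linarith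
      have hims2 : 0 < (((1 / lam : ℝ) : ℂ) * s + ((0:ℝ):ℂ)).im := by
        rw [Complex.ofReal_zero, add_zero, Complex.im_ofReal_mul]
        positivity
      rw [hztf s hs, hztf _ hims2, main _ hims]
      have hlc : (lam:ℂ) ≠ 0 := by exact_mod_cast hlam.ne'
      have e3 : (lam:ℂ) * ((x:ℂ) - 1 / s) + t =
          (x:ℂ) - 1 / ((((1 / lam : ℝ) : ℂ) * s + ((0:ℝ):ℂ))) := by
        have hxe' : (lam:ℂ) * x + t = x := by exact_mod_cast hxe
        push_cast
        rw [add_zero]
        have : 1 / (1 / (lam:ℂ) * s) = lam * (1 / s) := by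
          field_simp
        rw [this]
        linear_combination hxe'
      rw [e3]
  · refine ⟨conj ω, Complex.I, by rw [RCLike.norm_conj]; exact hω, by simp, lam, t,
      Or.inr ⟨h, hlt h⟩, ?_⟩
    intro s hs
    have := main s hs
    unfold zt
    rw [Complex.conj_conj, Complex.conj_I, sub_neg_eq_add, sub_neg_eq_add]
    exact this
  · obtain ⟨x, hx⟩ : ∃ x : ℝ, x = -t / (lam - 1) := ⟨_, rfl⟩
    have hxe : lam * x + t = x := by
      rw [hx]; field_simp [(sub_pos.2 h).ne']; ring
    refine ⟨conj ω, Complex.I - x, by rw [RCLike.norm_conj]; exact hω, by simp, lam, 0,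
      Or.inl ⟨h, rfl⟩, ?_⟩
    intro s hs
    have hsx : 0 < (s + x).im := by simpa using hs
    have hm := main (s + x) hsx
    have hxe' : (lam:ℂ) * x + t = x := by exact_mod_cast hxe
    have hz : ∀ w : ℂ, zt (conj ω) (Complex.I - x) w =
        ω * ((w + x - Complex.I) / (w + x + Complex.I)) := by
      intro w
      unfold zt
      rw [Complex.conj_conj, map_sub, Complex.conj_I, Complex.conj_ofReal]
      congr 2 <;> ring
    rw [hz, hz, hm]
    have e4 : (lam:ℂ) * (s + x) + t = (lam:ℂ) * s + ((0:ℝ):ℂ) + x := by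
      push_cast
      linear_combination hxe'
    rw [e4]

end F96
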