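import Mathlib

open scoped ComplexConjugate
open Filter

namespace F96

theorem j15456_conv (μ : ℝ) (hμ : 0 < μ) (g : ℝ → ℝ) (B : ℝ) (hB : ∀ r, 0 < r → g r ≤ B)
    (hc : ∀ r, 0 < r → 2 * g r ≤ g (μ * r) + g (r / μ)) : ∀ r, 0 < r → g (μ * r) ≤ g r := by
  intro r hr
  by_contra hcon
  have hcon := not_le.1 hcon
  have hstep : ∀ n : ℕ, g (μ * r) - g r ≤ g (μ ^ (n + 1) * r) - g (μ ^ n * r) := by
    intro n
    induction n with
    | zero => simp
    | succ n ih =>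
      have h1 := hc (μ ^ (n + 1) * r) (by positivity)
      have h2 : μ * (μ ^ (n + 1) * r) = μ ^ (n + 1 + 1) * r := by ring
      have h3 : μ ^ (n + 1) * r / μ = μ ^ n * r := by
        rw [div_eq_iff hμ.ne']
        ring
      rw [h2, h3] at h1
      linarith
  have hsum : ∀ n : ℕ, g r + n * (g (μ * r) - g r) ≤ g (μ ^ n * r) := by
    intro n
    induction n with
    | zero => simp
    | succ n ih =>
      have := hstep n
      push_cast
      linarith
  obtain ⟨n, hn⟩ := exists_nat_gt ((B - g r) / (g (μ * r) - g r))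
  have h1 := hsum n
  have h2 := hB (μ ^ n * r) (by positivity)
  rw [div_lt_iff₀ (by linarith)] at hn
  linarith

theorem j15456_core (lam : ℝ) (hlam : 0 < lam) (w : ℝ) (hw : 0 < w) (H c : ℝ → ℝ) (B : ℝ)
    (hH : ∀ r, 0 < r → 0 ≤ H r) (hc : ∀ r, 0 < r → 0 < c r)
    (hcw : ∀ r, 0 < r → c (lam * r) < w * c r)
    (hrel : ∀ r, 0 < r →
      2 * w * H r ≤ H (lam * r) + c r ^ 2 / c (r / lam) ^ 2 * H (r / lam))
    (hB : ∀ r, 0 < r → H r / c r ≤ B) : ∀ r, 0 < r → H r = 0 := by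
  have hg0 : ∀ r, 0 < r → 0 ≤ H r / c r := fun r hr => div_nonneg (hH r hr) (hc r hr).le
  have hl : ∀ r : ℝ, lam * (r / lam) = r := fun r => by field_simp
  have hu : ∀ r, 0 < r → c (lam * r) / c r < w := fun r hr => by
    rw [div_lt_iff₀ (hc r hr)]
    exact hcw r hr
  have hu' : ∀ r, 0 < r → c r / c (r / lam) < w := fun r hr => by
    have := hu (r / lam) (div_pos hr hlam)
    rwa [hl r] at this
  have hrel' : ∀ r, 0 < r → 2 * w * (H r / c r) ≤
      H (lam * r) / c (lam * r) * (c (lam * r) / c r) +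
        H (r / lam) / c (r / lam) * (c r / c (r / lam)) := by
    intro r hr
    have h1 := hrel r hr
    have c1 := hc r hr
    have c2 := hc (lam * r) (mul_pos hlam hr)
    have c3 := hc (r / lam) (div_pos hr hlam)
    have h2 : H (lam * r) / c (lam * r) * (c (lam * r) / c r) +
        H (r / lam) / c (r / lam) * (c r / c (r / lam)) =
        (H (lam * r) + c r ^ 2 / c (r / lam) ^ 2 * H (r / lam)) / c r := by
      field_simp
    have h3 : 2 * w * (H r / c r) = (2 * w * H r) / c r := by ring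
    rw [h2, h3]
    exact div_le_div_of_nonneg_right h1 c1.le
  have hconv : ∀ r, 0 < r → 2 * (H r / c r) ≤
      H (lam * r) / c (lam * r) + H (r / lam) / c (r / lam) := by
    intro r hr
    have h1 := hrel' r hr
    have h2 : H (lam * r) / c (lam * r) * (c (lam * r) / c r) ≤ H (lam * r) / c (lam * r) * w :=
      mul_le_mul_of_nonneg_left (hu r hr).le (hg0 _ (mul_pos hlam hr))
    have h3 : H (r / lam) / c (r / lam) * (c r / c (r / lam)) ≤ H (r / lam) / c (r / lam) * w :=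
      mul_le_mul_of_nonneg_left (hu' r hr).le (hg0 _ (div_pos hr hlam))
    have h4 : w * (2 * (H r / c r)) ≤
        w * (H (lam * r) / c (lam * r) + H (r / lam) / c (r / lam)) := by linarith
    exact le_of_mul_le_mul_left h4 hw
  have k1 : ∀ r, 0 < r → H (lam * r) / c (lam * r) ≤ H r / c r :=
    j15456_conv lam hlam (fun r => H r / c r) B hB hconv
  have k2 : ∀ r, 0 < r → H (r / lam) / c (r / lam) ≤ H r / c r := by
    intro r hr
    have := j15456_conv lam⁻¹ (inv_pos.2 hlam) (fun r => H r / c r) B hB (fun r hr => by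
      have := hconv r hr
      have e1 : lam⁻¹ * r = r / lam := by ring
      have e2 : r / lam⁻¹ = lam * r := by rw [div_inv_eq_mul]; ring
      change 2 * (H r / c r) ≤ H (lam⁻¹ * r) / c (lam⁻¹ * r) + H (r / lam⁻¹) / c (r / lam⁻¹)
      rw [e1, e2]
      linarith) r hr
    have e1 : lam⁻¹ * r = r / lam := by ring
    change H (lam⁻¹ * r) / c (lam⁻¹ * r) ≤ H r / c r at this
    rwa [e1] at this
  intro r hr
  by_contra hne
  have hHr : 0 < H r := lt_of_le_of_ne (hH r hr) (Ne.symm hne)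
  have hgr : 0 < H r / c r := div_pos hHr (hc r hr)
  have h1 := hrel' r hr
  have h2 : H (lam * r) / c (lam * r) * (c (lam * r) / c r) ≤
      H r / c r * (c (lam * r) / c r) :=
    mul_le_mul_of_nonneg_right (k1 r hr)
      (div_nonneg (hc _ (mul_pos hlam hr)).le (hc r hr).le)
  have h3 : H (r / lam) / c (r / lam) * (c r / c (r / lam)) ≤
      H r / c r * (c r / c (r / lam)) :=
    mul_le_mul_of_nonneg_right (k2 r hr)
      (div_nonneg (hc r hr).le (hc _ (div_pos hr hlam)).le)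
  have h4 : H r / c r * (c (lam * r) / c r) < H r / c r * w :=
    mul_lt_mul_of_pos_left (hu r hr) hgr
  have h5 : H r / c r * (c r / c (r / lam)) < H r / c r * w :=
    mul_lt_mul_of_pos_left (hu' r hr) hgr
  linarith

theorem j15456_poly {lam r m y : ℝ} (hlam : 1 < lam) (hr : 0 < r) (hm : 0 ≤ m) (hy : 0 < y) :
    ((lam * r + m) ^ 2 + (lam * r - y) ^ 2) * ((lam * r + m) ^ 2 + (lam * r + y) ^ 2) <
      lam ^ 4 * (((r + m) ^ 2 + (r - y) ^ 2) * ((r + m) ^ 2 + (r + y) ^ 2)) := by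
  have e : lam ^ 4 * (((r + m) ^ 2 + (r - y) ^ 2) * ((r + m) ^ 2 + (r + y) ^ 2)) -
      ((lam * r + m) ^ 2 + (lam * r - y) ^ 2) * ((lam * r + m) ^ 2 + (lam * r + y) ^ 2) =
      8 * m * r ^ 3 * lam ^ 3 * (lam - 1) + 8 * m ^ 2 * r ^ 2 * lam ^ 2 * (lam ^ 2 - 1) +
      4 * m * (m ^ 2 + y ^ 2) * r * lam * (lam ^ 3 - 1) +
      (m ^ 2 + y ^ 2) ^ 2 * (lam ^ 4 - 1) := by ring
  have l1 : 0 < lam - 1 := by linarith
  have l2 : 0 < lam ^ 2 - 1 := by nlinarith
  have l3 : 0 < lam ^ 3 - 1 := by nlinarith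
  have l4 : 0 < lam ^ 4 - 1 := by nlinarith
  have l0 : 0 < lam := by linarith
  have p1 : 0 ≤ 8 * m * r ^ 3 * lam ^ 3 * (lam - 1) := by positivity
  have p2 : 0 ≤ 8 * m ^ 2 * r ^ 2 * lam ^ 2 * (lam ^ 2 - 1) := by positivity
  have p3 : 0 ≤ 4 * m * (m ^ 2 + y ^ 2) * r * lam * (lam ^ 3 - 1) := by positivity
  have p4 : 0 < (m ^ 2 + y ^ 2) ^ 2 * (lam ^ 4 - 1) := by positivity
  linarith

theorem j15456_ratio {r m y : ℝ} (hr : 0 < r) (hm : 0 ≤ m) (hy : 0 < y) :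
    (r + m) ^ 2 + (r + y) ^ 2 ≤ 16 * ((r + m) ^ 2 + (r - y) ^ 2) := by
  nlinarith [mul_nonneg hr.le hm, mul_pos hr hy, sq_nonneg (r - y), sq_nonneg (2 * r - y),
    sq_nonneg m, sq_nonneg r, sq_nonneg y]

theorem ray_zero (lam : ℝ) (hlam : 1 < lam) (b : ℂ) (hb : 0 < b.im) (ε : ℂ) (hε : ‖ε‖ = 1)
    (w : ℝ) (hw : Real.sqrt lam ≤ w) (h : ℂ → ℂ) (K : ℝ)
    (hK : ∀ s : ℂ, 0 < s.im → ‖h s‖ ^ 2 ≤ K * ‖s - conj b‖ ^ 2 / s.im)
    (heq : ∀ s : ℂ, 0 < s.im → s / lam ≠ b →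
      ε * h (lam * s) + conj ε * (((s - b) * (s - conj b)) /
        (lam * ((s / lam - b) * (s / lam - conj b))) * h (s / lam)) = 2 * w * h s) :
    ∃ α : ℂ, 0 < α.im ∧ ∀ r : ℝ, 0 < r → h (r * α) = 0 := by
  obtain ⟨a, ha2, hax⟩ : ∃ a : ℝ, a ^ 2 = 1 ∧ 0 ≤ -(a * b.re) := by
    rcases le_total 0 b.re with hx | hx
    · exact ⟨-1, by norm_num, by linarith⟩
    · exact ⟨1, by norm_num, by linarith⟩
  have hl0 : 0 < lam := by linarith
  have hw0 : 0 < w := lt_of_lt_of_le (Real.sqrt_pos.2 hl0) hw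
  have hw2 : lam ≤ w ^ 2 := by
    have h1 := Real.sq_sqrt hl0.le
    have h2 : Real.sqrt lam ^ 2 ≤ w ^ 2 := pow_le_pow_left₀ (Real.sqrt_nonneg _) hw 2
    linarith
  set m : ℝ := -(a * b.re) with hm
  set α : ℂ := ⟨a, 1⟩ with hα
  refine ⟨α, by rw [hα]; exact one_pos, ?_⟩
  have hre : ∀ r : ℝ, ((r : ℂ) * α).re = r * a := fun r => by
    rw [Complex.re_ofReal_mul]
  have him : ∀ r : ℝ, ((r : ℂ) * α).im = r := fun r => by
    rw [Complex.im_ofReal_mul]
    change r * 1 = r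
    rw [mul_one]
  have hsqm : ∀ r : ℝ, (r * a - b.re) ^ 2 = (r + m) ^ 2 := fun r => by
    rw [hm]
    have : (r * a - b.re) ^ 2 - (r + -(a * b.re)) ^ 2 = (r ^ 2 - b.re ^ 2) * (a ^ 2 - 1) := by
      ring
    rw [ha2, sub_self, mul_zero] at this
    linarith
  have hD1 : ∀ r : ℝ, ‖(r : ℂ) * α - b‖ ^ 2 = (r + m) ^ 2 + (r - b.im) ^ 2 := fun r => by
    rw [Complex.sq_norm, Complex.normSq_apply, Complex.sub_re, Complex.sub_im, hre, him,
      ← hsqm]
    ring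
  have hD2 : ∀ r : ℝ, ‖(r : ℂ) * α - conj b‖ ^ 2 = (r + m) ^ 2 + (r + b.im) ^ 2 := fun r => by
    rw [Complex.sq_norm, Complex.normSq_apply, Complex.sub_re, Complex.sub_im, hre, him,
      Complex.conj_re, Complex.conj_im, ← hsqm]
    ring
  have hn1 : ∀ r : ℝ, 0 < r → 0 < ‖(r : ℂ) * α - b‖ := fun r hr => by
    have h1 : 0 < ‖(r : ℂ) * α - b‖ ^ 2 := by
      rw [hD1]
      have : 0 < (r + m) ^ 2 := by positivity
      positivity
    exact lt_of_le_of_ne (norm_nonneg _) (fun h0 => by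
      rw [← h0] at h1
      norm_num at h1)
  have hn2 : ∀ r : ℝ, 0 < r → 0 < ‖(r : ℂ) * α - conj b‖ := fun r hr => by
    have h1 : 0 < ‖(r : ℂ) * α - conj b‖ ^ 2 := by
      rw [hD2]
      have : 0 < (r + m) ^ 2 := by positivity
      positivity
    exact lt_of_le_of_ne (norm_nonneg _) (fun h0 => by
      rw [← h0] at h1
      norm_num at h1)
  set q : ℝ → ℝ := fun r => ‖(r : ℂ) * α - b‖ * ‖(r : ℂ) * α - conj b‖ with hq
  have hq0 : ∀ r, 0 < r → 0 < q r := fun r hr => mul_pos (hn1 r hr) (hn2 r hr)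
  have hq2 : ∀ r, q r ^ 2 = ((r + m) ^ 2 + (r - b.im) ^ 2) * ((r + m) ^ 2 + (r + b.im) ^ 2) :=
    fun r => by
      change (‖(r : ℂ) * α - b‖ * ‖(r : ℂ) * α - conj b‖) ^ 2 = _
      rw [mul_pow, hD1, hD2]
  have hqlt : ∀ r, 0 < r → q (lam * r) < lam ^ 2 * q r := fun r hr => by
    have h1 := j15456_poly hlam hr hax hb
    rw [← hq2, ← hq2] at h1
    have h2 : lam ^ 4 * q r ^ 2 = (lam ^ 2 * q r) ^ 2 := by ring
    rw [h2] at h1
    exact lt_of_pow_lt_pow_left₀ 2 (mul_nonneg (sq_nonneg _) (hq0 r hr).le) h1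
  set c : ℝ → ℝ := fun r => Real.sqrt (q r / r) with hc
  have hc0 : ∀ r, 0 < r → 0 < c r := fun r hr => Real.sqrt_pos.2 (div_pos (hq0 r hr) hr)
  have hc2 : ∀ r, 0 < r → c r ^ 2 = q r / r := fun r hr =>
    Real.sq_sqrt (div_pos (hq0 r hr) hr).le
  have hK0 : 0 ≤ K := by
    have h1 := hK (((1 : ℝ) : ℂ) * α) (by rw [him]; exact one_pos)
    rw [him, div_one] at h1
    have h2 := pow_pos (hn2 1 one_pos) 2
    by_contra hneg
    have h3 : K * ‖((1 : ℝ) : ℂ) * α - conj b‖ ^ 2 < 0 := mul_neg_of_neg_of_pos (not_le.1 hneg) h2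
    have h4 := sq_nonneg ‖h (((1 : ℝ) : ℂ) * α)‖
    linarith
  have hfin := j15456_core lam hl0 w hw0 (fun r => ‖h ((r : ℂ) * α)‖) c (4 * K + 1)
    (fun r _ => norm_nonneg _) hc0 ?_ ?_ ?_
  · intro r hr
    exact norm_eq_zero.1 (hfin r hr)
  · intro r hr
    have h1 : c (lam * r) ^ 2 < (w * c r) ^ 2 := by
      rw [mul_pow, hc2 _ (mul_pos hl0 hr), hc2 r hr]
      calc q (lam * r) / (lam * r) < (lam ^ 2 * q r) / (lam * r) :=
            div_lt_div_of_pos_right (hqlt r hr) (mul_pos hl0 hr)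
        _ = lam * (q r / r) := by field_simp
        _ ≤ w ^ 2 * (q r / r) :=
            mul_le_mul_of_nonneg_right hw2 (div_pos (hq0 r hr) hr).le
    exact lt_of_pow_lt_pow_left₀ 2 (mul_nonneg hw0.le (hc0 r hr).le) h1
  · intro r hr
    have hrl : 0 < r / lam := div_pos hr hl0
    have e1 : ((r : ℂ) * α) / (lam : ℂ) = ((r / lam : ℝ) : ℂ) * α := by
      push_cast
      ring
    have e2 : (lam : ℂ) * ((r : ℂ) * α) = ((lam * r : ℝ) : ℂ) * α := by
      push_cast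
      ring
    have hne : ((r : ℂ) * α) / (lam : ℂ) ≠ b := by
      rw [e1]
      intro heq'
      have := hn1 (r / lam) hrl
      rw [heq', sub_self, norm_zero] at this
      exact lt_irrefl _ this
    have h1 := heq ((r : ℂ) * α) (by rw [him]; exact hr) hne
    rw [e1, e2] at h1
    have h2 := congrArg norm h1
    have h3 : ‖(2 : ℂ) * w * h ((r : ℂ) * α)‖ = 2 * w * ‖h ((r : ℂ) * α)‖ := by
      rw [norm_mul, norm_mul, Complex.norm_real, Real.norm_eq_abs, abs_of_pos hw0]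
      norm_num
    rw [h3] at h2
    have hcε : ‖conj ε‖ = 1 := by rw [Complex.norm_conj, hε]
    have h4 : c r ^ 2 / c (r / lam) ^ 2 = q r / (lam * q (r / lam)) := by
      rw [hc2 r hr, hc2 _ hrl]
      have := hq0 _ hrl
      field_simp
    change 2 * w * ‖h ((r : ℂ) * α)‖ ≤ ‖h (((lam * r : ℝ) : ℂ) * α)‖ +
      c r ^ 2 / c (r / lam) ^ 2 * ‖h (((r / lam : ℝ) : ℂ) * α)‖
    rw [h4, ← h2]
    refine (norm_add_le _ _).trans ?_
    rw [norm_mul, norm_mul, norm_mul, norm_div, norm_mul, norm_mul, norm_mul, hε, hcε, one_mul,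
      one_mul, Complex.norm_real, Real.norm_eq_abs, abs_of_pos hl0]
  · intro r hr
    change ‖h ((r : ℂ) * α)‖ / c r ≤ 4 * K + 1
    have h1 := hK ((r : ℂ) * α) (by rw [him]; exact hr)
    rw [him] at h1
    have hr1 := hn1 r hr
    have hr2 := hn2 r hr
    have h2 : ‖(r : ℂ) * α - conj b‖ ≤ 4 * ‖(r : ℂ) * α - b‖ := by
      refine le_of_sq_le_sq ?_ (by positivity)
      rw [mul_pow, hD1, hD2]
      have := j15456_ratio hr hax hb
      linarith
    have h3 : (‖h ((r : ℂ) * α)‖ / c r) ^ 2 ≤ 4 * K := by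
      rw [div_pow, hc2 r hr, div_le_iff₀ (div_pos (hq0 r hr) hr)]
      refine h1.trans ?_
      have h4 : 4 * K * (q r / r) = (4 * K * q r) / r := by ring
      rw [h4]
      refine div_le_div_of_nonneg_right ?_ hr.le
      change K * ‖(r : ℂ) * α - conj b‖ ^ 2 ≤
        4 * K * (‖(r : ℂ) * α - b‖ * ‖(r : ℂ) * α - conj b‖)
      have h5 : K * ‖(r : ℂ) * α - conj b‖ * ‖(r : ℂ) * α - conj b‖ ≤
          K * ‖(r : ℂ) * α - conj b‖ * (4 * ‖(r : ℂ) * α - b‖) :=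
        mul_le_mul_of_nonneg_left h2 (mul_nonneg hK0 hr2.le)
      linarith
    nlinarith [sq_nonneg (‖h ((r : ℂ) * α)‖ / c r - 1), h3]

end F96
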