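import Pool.Agent.Helper368.F96.Core
import Pool.Agent.Helper368.F96.Ray
import Pool.Agent.Helper368.F96.Classify

open scoped ComplexConjugate
open Filter

namespace F96

lemma exists_M {η b s₀ : ℂ} (hη : ‖η‖ = 1) (hb : 0 < b.im) (hs₀ : 0 < s₀.im) :
    ∃ M : H2 →ₗᵢ[ℂ] H2, (∀ f : H2, ∀ s : ℂ, 0 < s.im →
      ev (M f) (zt η b s) = (s - s₀) / (s - conj s₀) * ev f (zt η b s)) ∧
      ∀ N : H2 →ₗᵢ[ℂ] H2, (∀ f : H2, ∀ z : ℂ, ‖z‖ < 1 →
      ev (N f) z = (z - zt η b s₀) / (1 - conj (zt η b s₀) * z) * ev f z) → ∀ f : H2,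
      M f = (-η * ((s₀ - conj b) / (conj s₀ - b))) • N f := by
  obtain ⟨N, hN⟩ := exists_mult (zt η b s₀) (norm_zt_lt hη hb hs₀)
  have h1 := sub_conj_ne hb hs₀
  have h2 := conj_sub_ne hb hs₀
  have hκ : ‖-η * ((s₀ - conj b) / (conj s₀ - b))‖ = 1 := by
    have h3 : ‖s₀ - conj b‖ = ‖conj s₀ - b‖ := by
      rw [← RCLike.norm_conj (s₀ - conj b), map_sub, Complex.conj_conj]
    rw [norm_mul, norm_neg, hη, one_mul, norm_div, h3, div_self]
    exact norm_ne_zero_iff.2 h2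
  have hM : ∀ f : H2, ‖(-η * ((s₀ - conj b) / (conj s₀ - b))) • N f‖ = ‖f‖ := by
    intro f
    rw [norm_smul, hκ, one_mul, N.norm_map]
  refine ⟨⟨(-η * ((s₀ - conj b) / (conj s₀ - b))) • N.toLinearMap, hM⟩, ?_, ?_⟩
  · intro f s hs
    have hz := norm_zt_lt hη hb hs
    change ev ((-η * ((s₀ - conj b) / (conj s₀ - b))) • N f) (zt η b s) = _
    rw [ev_smul hz, hN f _ hz, one_sub_conj_zt hη hb hs₀ hs, ← mul_assoc]
    congr 1
    unfold zt
    have h3 := sub_conj_ne hb hs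
    have h4 := sub_conj_ne hs₀ hs
    have h5 := conj_sub_ne' hs₀ hs
    have h6 := b_sub_conj_ne hb
    have h7 : conj η * ((s - b) / (s - conj b)) - conj η * ((s₀ - b) / (s₀ - conj b)) =
      conj η * ((b - conj b) * (s - s₀) / ((s - conj b) * (s₀ - conj b))) := by
      field_simp
      ring
    have h8 : conj s₀ - s = -(s - conj s₀) := by ring
    rw [h7, h8]
    have h9 : -η * ((s₀ - conj b) / (conj s₀ - b)) *
      (conj η * ((b - conj b) * (s - s₀) / ((s - conj b) * (s₀ - conj b))) /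
        ((b - conj b) * -(s - conj s₀) / ((conj s₀ - b) * (s - conj b)))) =
      (conj η * η) * ((s - s₀) / (s - conj s₀)) := by
      field_simp
    rw [h9, unim hη, one_mul]
  · intro N' hN' f
    change (-η * ((s₀ - conj b) / (conj s₀ - b))) • N f = _
    congr 1
    apply ev_injective
    intro z hz
    rw [hN f z hz, hN' f z hz]

/-- a fixed choice of the multiplication isometries -/
noncomputable def Mop {η b : ℂ} (hη : ‖η‖ = 1) (hb : 0 < b.im) {s₀ : ℂ} (hs₀ : 0 < s₀.im) :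
    H2 →ₗᵢ[ℂ] H2 := (exists_M hη hb hs₀).choose

lemma ev_Mop {η b : ℂ} (hη : ‖η‖ = 1) (hb : 0 < b.im) {s₀ : ℂ} (hs₀ : 0 < s₀.im)
    (f : H2) {s : ℂ} (hs : 0 < s.im) :
    ev (Mop hη hb hs₀ f) (zt η b s) = (s - s₀) / (s - conj s₀) * ev f (zt η b s) :=
  (exists_M hη hb hs₀).choose_spec.1 f s hs

lemma ext_zt {η b : ℂ} (hη : ‖η‖ = 1) (hb : 0 < b.im) {f g : H2}
    (h : ∀ s : ℂ, 0 < s.im → ev f (zt η b s) = ev g (zt η b s)) : f = g := by
  apply ev_injective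
  intro z hz
  obtain ⟨s, hs, rfl⟩ := exists_zt hη hb hz
  exact h s hs

lemma Mop_comm {η b : ℂ} (hη : ‖η‖ = 1) (hb : 0 < b.im) {s₀ s₁ : ℂ} (hs₀ : 0 < s₀.im)
    (hs₁ : 0 < s₁.im) (f : H2) :
    Mop hη hb hs₀ (Mop hη hb hs₁ f) = Mop hη hb hs₁ (Mop hη hb hs₀ f) := by
  apply ext_zt hη hb
  intro s hs
  rw [ev_Mop hη hb hs₀ _ hs, ev_Mop hη hb hs₁ _ hs, ev_Mop hη hb hs₁ _ hs, ev_Mop hη hb hs₀ _ hs]
  ring

lemma tendsto_Mop {η b : ℂ} (hη : ‖η‖ = 1) (hb : 0 < b.im) (u : ℕ → ℂ) (hu : ∀ n, 0 < (u n).im)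
    (a κ : ℂ) (ha : ‖a‖ = 1) (h1 : Tendsto (fun n => (u n - b) / (u n - conj b)) atTop (nhds a))
    (h2 : Tendsto (fun n => (u n - conj b) / (conj (u n) - b)) atTop (nhds κ)) (f : H2) :
    Tendsto (fun n => Mop hη hb (hu n) f) atTop (nhds ((κ * a) • f)) := by
  choose N hN using fun n => exists_mult (zt η b (u n)) (norm_zt_lt hη hb (hu n))
  have h3 : Tendsto (fun n => zt η b (u n)) atTop (nhds (conj η * a)) := h1.const_mul _
  have h4 : ‖conj η * a‖ = 1 := by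
    rw [norm_mul, RCLike.norm_conj, hη, ha, one_mul]
  have h5 := tendsto_mult (fun n => zt η b (u n)) (fun n => norm_zt_lt hη hb (hu n))
    (conj η * a) h4 h3 N hN f
  have h6 : ∀ n, Mop hη hb (hu n) f = (-η * ((u n - conj b) / (conj (u n) - b))) • N n f :=
    fun n => (exists_M hη hb (hu n)).choose_spec.2 (N n) (hN n) f
  have h7 : Tendsto (fun n => (-η * ((u n - conj b) / (conj (u n) - b))) • N n f) atTop
      (nhds ((-η * κ) • (-(conj η * a) • f))) := (h2.const_mul (-η)).smul h5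
  have h8 : (-η * κ) • (-(conj η * a) • f) = (κ * a) • f := by
    rw [smul_smul]
    congr 1
    linear_combination (κ * a) * unim hη
  rw [h8] at h7
  simpa only [h6] using h7

end F96
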