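import Mathlib

open scoped ComplexConjugate

namespace F96

/-- The Hardy space `H²`: square summable sequences of Taylor coefficients. -/
noncomputable abbrev H2 := lp (fun _ : ℕ => ℂ) 2

/-- The analytic function on the unit disc with Taylor coefficients `f`. -/
noncomputable def ev (f : H2) (z : ℂ) : ℂ := ∑' n : ℕ, f n * z ^ n

/-- The numerical range of the composition operator `C_φ f = f ∘ φ` on `H²`. -/
def W (φ : ℂ → ℂ) : Set ℂ :=
  {l | ∃ f g : H2, ‖f‖ = 1 ∧ (∀ z : ℂ, ‖z‖ < 1 → ev g z = ev f (φ z)) ∧ l = inner ℂ f g}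

lemma memlp_geom {z : ℂ} (hz : ‖z‖ < 1) : Memℓp (fun n : ℕ => (conj z) ^ n) 2 := by
  rw [memℓp_gen_iff (by norm_num)]
  have h : ‖z‖ ^ 2 < 1 := by
    have := norm_nonneg z
    nlinarith
  have h2 := summable_geometric_of_lt_one (by positivity) h
  refine h2.congr ?_
  intro n
  simp
  rw [← pow_mul, ← pow_mul, mul_comm]

open Classical in
/-- reproducing kernel at `z` (zero if `z` is not in the disc) -/
noncomputable def kz (z : ℂ) : H2 :=
  if h : ‖z‖ < 1 then ⟨fun n => (conj z) ^ n, memlp_geom h⟩ else 0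

lemma kz_apply {z : ℂ} (hz : ‖z‖ < 1) (n : ℕ) : kz z n = (conj z) ^ n := by
  unfold kz
  rw [dif_pos hz]

lemma hasSum_ev {z : ℂ} (hz : ‖z‖ < 1) (f : H2) : HasSum (fun n => f n * z ^ n) (inner ℂ (kz z) f) := by
  have h := lp.hasSum_inner (𝕜 := ℂ) (kz z) f
  have h2 : (fun n => f n * z ^ n) = fun i => inner ℂ ((kz z) i) (f i) := by
    ext n
    rw [kz_apply hz]
    simp
  rw [h2]
  exact h

lemma inner_kz {z : ℂ} (hz : ‖z‖ < 1) (f : H2) : inner ℂ (kz z) f = ev f z :=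
  (hasSum_ev hz f).tsum_eq.symm

lemma ev_kz {z u : ℂ} (hz : ‖z‖ < 1) (hu : ‖u‖ < 1) : ev (kz z) u = 1 / (1 - conj z * u) := by
  unfold ev
  have h1 : ‖conj z * u‖ < 1 := by
    rw [norm_mul, RCLike.norm_conj]
    nlinarith [norm_nonneg z, norm_nonneg u]
  have h2 := tsum_geometric_of_norm_lt_one h1
  rw [one_div, ← h2]
  congr 1
  ext n
  rw [kz_apply hz, mul_pow]

lemma norm_kz_sq {z : ℂ} (hz : ‖z‖ < 1) : ‖kz z‖ ^ 2 = 1 / (1 - ‖z‖ ^ 2) := by
  have h : inner ℂ (kz z) (kz z) = ev (kz z) z := inner_kz hz _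
  rw [ev_kz hz hz, inner_self_eq_norm_sq_to_K, Complex.conj_mul'] at h
  have h3 : ((‖kz z‖ ^ 2 : ℝ) : ℂ) = ((1 / (1 - ‖z‖ ^ 2) : ℝ) : ℂ) := by
    push_cast
    exact h
  exact_mod_cast h3

lemma one_sub_sq_pos {z : ℂ} (hz : ‖z‖ < 1) : 0 < 1 - ‖z‖ ^ 2 := by
  have := norm_nonneg z
  nlinarith

lemma norm_ev_sq_le {z : ℂ} (hz : ‖z‖ < 1) (f : H2) :
    ‖ev f z‖ ^ 2 ≤ ‖f‖ ^ 2 / (1 - ‖z‖ ^ 2) := by
  rw [← inner_kz hz]
  have h := norm_inner_le_norm (𝕜 := ℂ) (kz z) f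
  have h2 := pow_le_pow_left₀ (norm_nonneg _) h 2
  rw [mul_pow, norm_kz_sq hz] at h2
  calc _ ≤ _ := h2
    _ = _ := by ring

lemma ev_add {z : ℂ} (hz : ‖z‖ < 1) (f g : H2) : ev (f + g) z = ev f z + ev g z := by
  rw [← inner_kz hz, ← inner_kz hz, ← inner_kz hz, inner_add_right]

lemma ev_sub {z : ℂ} (hz : ‖z‖ < 1) (f g : H2) : ev (f - g) z = ev f z - ev g z := by
  rw [← inner_kz hz, ← inner_kz hz, ← inner_kz hz, inner_sub_right]

lemma ev_smul {z : ℂ} (hz : ‖z‖ < 1) (c : ℂ) (f : H2) : ev (c • f) z = c * ev f z := by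
  rw [← inner_kz hz, ← inner_kz hz, inner_smul_right]

lemma ev_zero (f : H2) : ev f 0 = f 0 := by
  unfold ev
  rw [tsum_eq_single 0]
  · simp
  · intro n hn
    simp [hn]

lemma mem_eball_iff {y : ℂ} : y ∈ Metric.eball (0 : ℂ) 1 ↔ ‖y‖ < 1 := by
  rw [Metric.mem_eball, edist_dist, dist_zero_right, ENNReal.ofReal_lt_one]

lemma hasFPowerSeries_ev (f : H2) :
    HasFPowerSeriesOnBall (ev f) (FormalMultilinearSeries.ofScalars ℂ (fun n => f n)) 0 1 := by
  refine ⟨?_, by norm_num, ?_⟩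
  · have h := FormalMultilinearSeries.le_radius_of_bound (r := 1)
      (FormalMultilinearSeries.ofScalars ℂ (fun n => f n) : FormalMultilinearSeries ℂ ℂ ℂ) ‖f‖
      (by
        intro n
        rw [FormalMultilinearSeries.ofScalars_norm]
        simpa using lp.norm_apply_le_norm (by norm_num) f n)
    simpa using h
  · intro y hy
    have hy' : ‖y‖ < 1 := mem_eball_iff.1 hy
    have h := hasSum_ev hy' f
    rw [inner_kz hy'] at h
    simpa [FormalMultilinearSeries.ofScalars_apply_eq, mul_comm] using h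

lemma analyticOnNhd_ev (f : H2) : AnalyticOnNhd ℂ (ev f) (Metric.ball 0 1) := by
  have h := (hasFPowerSeries_ev f).analyticOnNhd
  intro z hz
  apply h
  rw [mem_eball_iff]
  simpa using hz

/-- if `ev f` vanishes on a sequence of points accumulating inside the disc, then `f = 0` -/
lemma ev_eq_zero_iff {f : H2} (h : ∀ z : ℂ, ‖z‖ < 1 → ev f z = 0) : f = 0 := by
  have h1 : HasFPowerSeriesOnBall (fun _ : ℂ => (0 : ℂ)) (FormalMultilinearSeries.ofScalars ℂ (fun n => f n)) 0 1 := by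
    refine (hasFPowerSeries_ev f).congr ?_
    intro z hz
    exact h z (mem_eball_iff.1 hz)
  have h2 := h1.hasFPowerSeriesAt.eq_zero
  ext n
  have h3 := congrArg (fun q => q n (fun _ => (1 : ℂ))) h2
  simpa [FormalMultilinearSeries.ofScalars_apply_eq] using h3

lemma eq_zero_of_frequently {f : H2} {z₀ : ℂ} (hz₀ : ‖z₀‖ < 1)
    (h : ∃ᶠ z in nhdsWithin z₀ {z₀}ᶜ, ev f z = 0) : f = 0 := by
  have h1 := (analyticOnNhd_ev f).eqOn_zero_of_preconnected_of_frequently_eq_zero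
    (convex_ball (0 : ℂ) 1).isPreconnected (by simpa using hz₀) h
  apply ev_eq_zero_iff
  intro z hz
  exact h1 (by simpa using hz)

lemma ev_injective {f g : H2} (h : ∀ z : ℂ, ‖z‖ < 1 → ev f z = ev g z) : f = g := by
  rw [← sub_eq_zero]
  apply ev_eq_zero_iff
  intro z hz
  rw [ev_sub hz, h z hz, sub_self]

end F96
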