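import Mathlib

open scoped ComplexConjugate

namespace F96

section
variable {H : Type*} [NormedAddCommGroup H] [InnerProductSpace ℂ H]

lemma quad_zero {L Q : ℝ} (h : ∀ t : ℝ, 0 ≤ t * L + t ^ 2 * Q) : L = 0 := by
  by_contra hL
  have hL2 : 0 < L ^ 2 := by positivity
  have h1 := h (-(L / (2 * (|Q| + 1))))
  have hq : 0 < |Q| + 1 := by positivity
  have hQ : Q ≤ |Q| + 1 := by linarith [le_abs_self Q]
  have h2 : (-(L / (2 * (|Q| + 1)))) * L + (-(L / (2 * (|Q| + 1)))) ^ 2 * Q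
      ≤ - (L ^ 2 / (4 * (|Q| + 1))) := by
    have h3 : (-(L / (2 * (|Q| + 1)))) ^ 2 * Q ≤ (-(L / (2 * (|Q| + 1)))) ^ 2 * (|Q| + 1) :=
      mul_le_mul_of_nonneg_left hQ (sq_nonneg _)
    have h4 : (-(L / (2 * (|Q| + 1)))) ^ 2 * (|Q| + 1) = L ^ 2 / (4 * (|Q| + 1)) := by
      field_simp
      ring
    have h5 : (-(L / (2 * (|Q| + 1)))) * L = - (2 * (L ^ 2 / (4 * (|Q| + 1)))) := by
      field_simp
      ring
    rw [h5]
    linarith
  have h6 : 0 < L ^ 2 / (4 * (|Q| + 1)) := by positivity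
  linarith

lemma euler_re (C : H →L[ℂ] H) (w : ℝ) (hw : ∀ x, ‖(inner ℂ x (C x) : ℂ)‖ ≤ w * ‖x‖ ^ 2)
    (f : H) (hf1 : ‖f‖ = 1) (e : ℂ) (he : ‖e‖ = 1) (hfe : e * inner ℂ f (C f) = w) (y : H) :
    (2 * w * inner ℂ y f - e * inner ℂ y (C f) - conj e * inner ℂ (C y) f : ℂ).re = 0 := by
  have hPhi : ∀ x : H, 0 ≤ w * ‖x‖ ^ 2 - (e * inner ℂ x (C x)).re := by
    intro x
    have h1 : (e * inner ℂ x (C x)).re ≤ ‖e * (inner ℂ x (C x) : ℂ)‖ := Complex.re_le_norm _
    rw [norm_mul, he, one_mul] at h1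
    linarith [hw x]
  apply quad_zero (Q := w * ‖y‖ ^ 2 - (e * inner ℂ y (C y)).re)
  intro t
  have h2 := hPhi (f + (t : ℂ) • y)
  have h3 : ‖f + (t : ℂ) • y‖ ^ 2 = 1 + 2 * t * (inner ℂ y f : ℂ).re + t ^ 2 * ‖y‖ ^ 2 := by
    rw [@norm_add_sq ℂ, hf1, norm_smul, inner_smul_right]
    have h9 : (inner ℂ f y : ℂ).re = (inner ℂ y f : ℂ).re := by
      rw [← inner_conj_symm y f, Complex.conj_re]
    simp only [RCLike.re_eq_complex_re, Complex.re_ofReal_mul, Complex.norm_real, mul_pow,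
      Real.norm_eq_abs, sq_abs, h9]
    ring
  have h4 : (e * inner ℂ (f + (t : ℂ) • y) (C (f + (t : ℂ) • y)) : ℂ).re =
      w + t * (e * inner ℂ y (C f) + conj e * inner ℂ (C y) f).re +
        t ^ 2 * (e * inner ℂ y (C y)).re := by
    have h5 : (inner ℂ (f + (t : ℂ) • y) (C (f + (t : ℂ) • y)) : ℂ) =
        inner ℂ f (C f) + t * inner ℂ y (C f) + t * inner ℂ f (C y) + t ^ 2 * inner ℂ y (C y) := by
      rw [map_add, map_smul]
      simp only [inner_add_left, inner_add_right, inner_smul_left, inner_smul_right,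
        Complex.conj_ofReal]
      ring
    have h6 : (conj e * inner ℂ (C y) f : ℂ).re = (e * inner ℂ f (C y)).re := by
      have : (conj e * inner ℂ (C y) f : ℂ) = conj (e * inner ℂ f (C y)) := by
        rw [map_mul, inner_conj_symm]
      rw [this, Complex.conj_re]
    rw [h5, Complex.add_re, h6]
    have h7 : e * (inner ℂ f (C f) + t * inner ℂ y (C f) + t * inner ℂ f (C y) +
        t ^ 2 * inner ℂ y (C y)) = e * inner ℂ f (C f) + (t : ℂ) * (e * inner ℂ y (C f)) +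
        (t : ℂ) * (e * inner ℂ f (C y)) + ((t ^ 2 : ℝ) : ℂ) * (e * inner ℂ y (C y)) := by
      push_cast
      ring
    rw [h7, hfe]
    simp only [Complex.add_re, Complex.re_ofReal_mul, Complex.ofReal_re]
    ring
  rw [h3, h4] at h2
  have h8 : (2 * w * inner ℂ y f - e * inner ℂ y (C f) - conj e * inner ℂ (C y) f : ℂ).re =
      2 * w * (inner ℂ y f : ℂ).re - (e * inner ℂ y (C f) + conj e * inner ℂ (C y) f).re := by
    have : (2 * w * inner ℂ y f - e * inner ℂ y (C f) - conj e * inner ℂ (C y) f : ℂ) =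
      ((2 * w : ℝ) : ℂ) * inner ℂ y f - (e * inner ℂ y (C f) + conj e * inner ℂ (C y) f) := by
      push_cast
      ring
    rw [this, Complex.sub_re, Complex.re_ofReal_mul]
  rw [h8]
  nlinarith [h2]

lemma euler (C : H →L[ℂ] H) (w : ℝ) (hw : ∀ x, ‖(inner ℂ x (C x) : ℂ)‖ ≤ w * ‖x‖ ^ 2)
    (f : H) (hf1 : ‖f‖ = 1) (e : ℂ) (he : ‖e‖ = 1) (hfe : e * inner ℂ f (C f) = w) (y : H) :
    e * inner ℂ y (C f) + conj e * inner ℂ (C y) f = 2 * w * inner ℂ y f := by
  have h1 := euler_re C w hw f hf1 e he hfe y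
  have h2 := euler_re C w hw f hf1 e he hfe (Complex.I • y)
  have h3 : (2 * w * inner ℂ (Complex.I • y) f - e * inner ℂ (Complex.I • y) (C f) -
      conj e * inner ℂ (C (Complex.I • y)) f : ℂ) =
      -Complex.I * (2 * w * inner ℂ y f - e * inner ℂ y (C f) - conj e * inner ℂ (C y) f) := by
    rw [map_smul]
    simp only [inner_smul_left, Complex.conj_I]
    ring
  rw [h3] at h2
  have h4 : (2 * w * inner ℂ y f - e * inner ℂ y (C f) - conj e * inner ℂ (C y) f : ℂ).im = 0 := by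
    rw [Complex.mul_re] at h2
    simpa using h2
  have h5 : (2 * w * inner ℂ y f - e * inner ℂ y (C f) - conj e * inner ℂ (C y) f : ℂ) = 0 :=
    Complex.ext h1 h4
  linear_combination -h5

end

end F96
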