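import Pool.Agent.Helper368.F96.Basics

open scoped ComplexConjugate

namespace F96


/-- shifted sequence -/
def shf (f : ℕ → ℂ) : ℕ → ℂ
  | 0 => 0
  | n + 1 => f n

lemma memlp_shf (f : H2) : Memℓp (shf f) 2 := by
  rw [memℓp_gen_iff (by norm_num)]
  have h := (memℓp_gen_iff (p := 2) (by norm_num)).mp (lp.memℓp f)
  rw [← summable_nat_add_iff 1]
  exact h

/-- the right shift, as a linear map -/
noncomputable def shL : H2 →ₗ[ℂ] H2 where
  toFun f := ⟨shf f, memlp_shf f⟩
  map_add' f g := by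
    ext n
    cases n with
    | zero => exact (add_zero (0 : ℂ)).symm
    | succ n => rfl
  map_smul' c f := by
    ext n
    cases n with
    | zero => simp [shf]
    | succ n => simp [shf]

lemma shL_zero (f : H2) : (shL f : ℕ → ℂ) 0 = 0 := rfl

lemma shL_succ (f : H2) (n : ℕ) : (shL f : ℕ → ℂ) (n + 1) = f n := rfl

lemma norm_shL (f : H2) : ‖shL f‖ = ‖f‖ := by
  have hp : 0 < (2 : ENNReal).toReal := by norm_num
  rw [lp.norm_eq_tsum_rpow hp, lp.norm_eq_tsum_rpow hp]
  congr 1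
  have hs := (memℓp_gen_iff (p := 2) (by norm_num)).mp (lp.memℓp (shL f))
  rw [hs.tsum_eq_zero_add]
  rw [shL_zero]
  simp only [shL_succ, norm_zero]
  rw [Real.zero_rpow (by norm_num), zero_add]

/-- the right shift, as an isometry -/
noncomputable def shI : H2 →ₗᵢ[ℂ] H2 := ⟨shL, norm_shL⟩

lemma ev_shI {z : ℂ} (hz : ‖z‖ < 1) (f : H2) : ev (shI f) z = z * ev f z := by
  have h1 := (hasSum_ev hz (shI f)).summable
  have h2 : ev (shI f) z = (shI f : ℕ → ℂ) 0 * z ^ 0 +
      ∑' n : ℕ, (shI f : ℕ → ℂ) (n + 1) * z ^ (n + 1) := by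
    unfold ev
    exact h1.tsum_eq_zero_add
  have h3 : (shI f : ℕ → ℂ) 0 = 0 := rfl
  have h4 : ∀ n, (shI f : ℕ → ℂ) (n + 1) = f n := fun n => rfl
  rw [h2, h3, zero_mul, zero_add]
  unfold ev
  rw [← tsum_mul_left]
  apply tsum_congr
  intro n
  rw [h4]
  ring

lemma norm_key (p : ℂ) (x : H2) : ‖shI x - p • x‖ = ‖x - conj p • shI x‖ := by
  have hS : ‖shI x‖ = ‖x‖ := shI.norm_map x
  have h1 : ‖shI x - p • x‖ ^ 2 = ‖x - conj p • shI x‖ ^ 2 := by
    rw [norm_sub_sq (𝕜 := ℂ), norm_sub_sq (𝕜 := ℂ), norm_smul, norm_smul, RCLike.norm_conj, hS,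
      inner_smul_right, inner_smul_right]
    have h2 : RCLike.re (p * inner ℂ (shI x) x) = RCLike.re (conj p * inner ℂ x (shI x)) := by
      rw [← inner_conj_symm (shI x) x]
      have : p * conj (inner ℂ x (shI x)) = conj (conj p * inner ℂ x (shI x)) := by
        rw [map_mul, Complex.conj_conj]
      rw [this]
      exact RCLike.conj_re _
    rw [h2]
  exact (sq_eq_sq₀ (norm_nonneg _) (norm_nonneg _)).mp h1

/-- TARGET: multiplication by a Blaschke factor is an isometry of `H²` -/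
theorem exists_mult (p : ℂ) (hp : ‖p‖ < 1) :
    ∃ M : H2 →ₗᵢ[ℂ] H2, ∀ f : H2, ∀ z : ℂ, ‖z‖ < 1 →
      ev (M f) z = (z - p) / (1 - conj p * z) * ev f z := by
  let A : H2 →L[ℂ] H2 := shI.toContinuousLinearMap
  have hA : ‖A‖ ≤ 1 := shI.norm_toContinuousLinearMap_le
  have hB : ‖conj p • A‖ < 1 := by
    rw [norm_smul, RCLike.norm_conj]
    calc ‖p‖ * ‖A‖ ≤ ‖p‖ * 1 := mul_le_mul_of_nonneg_left hA (norm_nonneg _)
      _ < 1 := by rwa [mul_one]
  obtain ⟨u, hu⟩ := isUnit_one_sub_of_norm_lt_one hB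
  let B' : H2 →L[ℂ] H2 := ↑(u⁻¹)
  have hinv : ∀ f : H2, B' f - conj p • shI (B' f) = f := by
    intro f
    have h1 : (↑u : H2 →L[ℂ] H2) * ↑(u⁻¹) = 1 := u.mul_inv
    have h2 := congrArg (fun L : H2 →L[ℂ] H2 => L f) h1
    rw [hu] at h2
    exact h2
  let M0 : H2 →L[ℂ] H2 := (A - p • (1 : H2 →L[ℂ] H2)) ∘L B'
  have hM0 : ∀ f, M0 f = shI (B' f) - p • B' f := fun f => rfl
  refine ⟨⟨M0.toLinearMap, fun f => ?_⟩, fun f z hz => ?_⟩
  · show ‖M0 f‖ = ‖f‖
    rw [hM0, norm_key, hinv]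
  · show ev (M0 f) z = _
    rw [hM0, ev_sub hz, ev_shI hz, ev_smul hz]
    have h1 : ev f z = (1 - conj p * z) * ev (B' f) z := by
      have h2 := congrArg (fun g => ev g z) (hinv f)
      rw [ev_sub hz, ev_smul hz, ev_shI hz] at h2
      rw [← h2]
      ring
    have hne : 1 - conj p * z ≠ 0 := by
      intro h0
      have h3 : conj p * z = 1 := (sub_eq_zero.mp h0).symm
      have h4 : ‖conj p * z‖ = 1 := by rw [h3, norm_one]
      rw [norm_mul, RCLike.norm_conj] at h4
      nlinarith [norm_nonneg z, norm_nonneg p]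
    rw [h1, div_mul_eq_mul_div, eq_div_iff hne]
    ring


theorem kz_span_dense (g : H2) (ε : ℝ) (hε : 0 < ε) :
    ∃ g' ∈ Submodule.span ℂ (kz '' {z | ‖z‖ < 1}), ‖g - g'‖ < ε := by
  set V : Submodule ℂ H2 := Submodule.span ℂ (kz '' {z | ‖z‖ < 1}) with hV
  have h1 : V.topologicalClosure = ⊤ := by
    rw [Submodule.topologicalClosure_eq_top_iff, eq_bot_iff]
    intro x hx
    rw [Submodule.mem_bot]
    apply ev_eq_zero_iff
    intro z hz
    rw [← inner_kz hz]
    exact (Submodule.mem_orthogonal V x).mp hx (kz z) (Submodule.subset_span ⟨z, hz, rfl⟩)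
  have h2 : Dense (V : Set H2) := Submodule.dense_iff_topologicalClosure_eq_top.mpr h1
  obtain ⟨g', hg', hd⟩ := h2.exists_dist_lt g hε
  exact ⟨g', hg', by rwa [dist_eq_norm] at hd⟩

open Filter in
theorem tendsto_ker (p : ℕ → ℂ) (ω : ℂ) (hω : ‖ω‖ = 1)
    (hlim : Tendsto p atTop (nhds ω)) (z e : ℂ) (hz : ‖z‖ < 1) :
    Tendsto (fun n => (z - p n) / (1 - conj (p n) * z) * e + ω * e) atTop (nhds 0) := by
  have hne : 1 - conj ω * z ≠ 0 := by
    intro h
    have h1 : conj ω * z = 1 := (sub_eq_zero.mp h).symm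
    have h2 : ‖conj ω * z‖ = 1 := by rw [h1, norm_one]
    rw [norm_mul, RCLike.norm_conj, hω, one_mul] at h2
    linarith
  have hww : ω * conj ω = 1 := by
    rw [Complex.mul_conj, Complex.normSq_eq_norm_sq, hω]
    norm_num
  have hval : (z - ω) / (1 - conj ω * z) * e + ω * e = 0 := by
    have h3 : z - ω = -ω * (1 - conj ω * z) := by linear_combination (-z) * hww
    rw [h3, mul_div_cancel_right₀ _ hne]
    ring
  rw [← hval]
  have hc : Tendsto (fun n => conj (p n)) atTop (nhds (conj ω)) :=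
    (Complex.continuous_conj.tendsto ω).comp hlim
  exact ((((tendsto_const_nhds.sub hlim).div
    (tendsto_const_nhds.sub (hc.mul_const z)) hne).mul_const e).add_const (ω * e))

open Filter in
/-- TARGET: Blaschke factors whose zeros tend to a boundary point converge strongly -/
theorem tendsto_mult (p : ℕ → ℂ) (hp : ∀ n, ‖p n‖ < 1) (ω : ℂ) (hω : ‖ω‖ = 1)
    (hlim : Tendsto p atTop (nhds ω))
    (M : ℕ → H2 →ₗᵢ[ℂ] H2)
    (hM : ∀ n f z, ‖z‖ < 1 → ev (M n f) z = (z - p n) / (1 - conj (p n) * z) * ev f z)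
    (f : H2) : Tendsto (fun n => M n f) atTop (nhds (-ω • f)) := by
  set d : ℕ → H2 := fun n => M n f + ω • f with hd
  have hnw : ‖ω • f‖ = ‖f‖ := by rw [norm_smul, hω, one_mul]
  have hdn : ∀ n, ‖d n‖ ≤ 2 * ‖f‖ := by
    intro n
    refine (norm_add_le _ _).trans ?_
    rw [hnw, LinearIsometry.norm_map]
    linarith
  -- convergence on the span of the kernels
  have hspan : ∀ g ∈ Submodule.span ℂ (kz '' {z | ‖z‖ < 1}),
      Tendsto (fun n => inner ℂ g (d n)) atTop (nhds 0) := by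
    intro g hg
    induction hg using Submodule.span_induction with
    | mem x hx =>
      obtain ⟨z, hz, rfl⟩ := hx
      have h1 : ∀ n, inner ℂ (kz z) (d n) =
          (z - p n) / (1 - conj (p n) * z) * ev f z + ω * ev f z := by
        intro n
        rw [hd]
        simp only
        rw [inner_add_right, inner_smul_right, inner_kz hz, inner_kz hz, hM n f z hz]
      simp only [h1]
      exact tendsto_ker p ω hω hlim z (ev f z) hz
    | zero => simp only [inner_zero_left]; exact tendsto_const_nhds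
    | add x y _ _ hx hy =>
      simp only [inner_add_left]
      simpa using hx.add hy
    | smul c x _ hx =>
      simp only [inner_smul_left]
      simpa using hx.const_mul (conj c)
  -- weak convergence
  have hweak : ∀ g : H2, Tendsto (fun n => inner ℂ g (d n)) atTop (nhds 0) := by
    intro g
    rw [Metric.tendsto_atTop]
    intro ε hε
    have hpos : 0 < 2 * ‖f‖ + 1 := by positivity
    obtain ⟨g', hg', hgg⟩ := kz_span_dense g (ε / (2 * (2 * ‖f‖ + 1))) (by positivity)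
    obtain ⟨N, hN⟩ := Metric.tendsto_atTop.mp (hspan g' hg') (ε / 2) (by positivity)
    refine ⟨N, fun n hn => ?_⟩
    have h2 := hN n hn
    rw [dist_zero_right] at h2 ⊢
    have h3 : inner ℂ g (d n) = inner ℂ (g - g') (d n) + inner ℂ g' (d n) := by
      rw [← inner_add_left, sub_add_cancel]
    rw [h3]
    have h4 : ‖inner ℂ (g - g') (d n)‖ ≤ ε / 2 := by
      calc ‖inner ℂ (g - g') (d n)‖ ≤ ‖g - g'‖ * ‖d n‖ := norm_inner_le_norm _ _
        _ ≤ (ε / (2 * (2 * ‖f‖ + 1))) * (2 * ‖f‖ + 1) := by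
            apply mul_le_mul hgg.le _ (norm_nonneg _) (by positivity)
            linarith [hdn n]
        _ = ε / 2 := by field_simp
    calc ‖inner ℂ (g - g') (d n) + inner ℂ g' (d n)‖ ≤ _ := norm_add_le _ _
      _ < ε := by linarith
  -- norms
  have hsq : ∀ n, ‖d n‖ ^ 2 = 2 * (inner ℂ (ω • f) (d n)).re := by
    intro n
    have h1 : ‖d n‖ ^ 2 = ‖M n f‖ ^ 2 + 2 * (inner ℂ (M n f) (ω • f)).re + ‖ω • f‖ ^ 2 :=
      norm_add_sq (𝕜 := ℂ) (M n f) (ω • f)
    have h2 : inner ℂ (ω • f) (d n) = inner ℂ (ω • f) (M n f) + inner ℂ (ω • f) (ω • f) := by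
      rw [hd]
      simp only
      rw [inner_add_right]
    have h3 : (inner ℂ (ω • f) (ω • f)).re = ‖ω • f‖ ^ 2 := by
      rw [inner_self_eq_norm_sq_to_K]
      norm_cast
    have h4 : (inner ℂ (ω • f) (M n f)).re = (inner ℂ (M n f) (ω • f)).re := by
      rw [← inner_conj_symm, Complex.conj_re]
    rw [h1, h2, Complex.add_re, h3, h4, hnw, LinearIsometry.norm_map]
    ring
  have hsq0 : Tendsto (fun n => ‖d n‖ ^ 2) atTop (nhds 0) := by
    simp only [hsq]
    have h1 := ((Complex.continuous_re.tendsto _).comp (hweak (ω • f))).const_mul 2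
    simpa using h1
  have hn0 : Tendsto (fun n => ‖d n‖) atTop (nhds 0) := by
    have h1 := (Real.continuous_sqrt.tendsto 0).comp hsq0
    rw [Real.sqrt_zero] at h1
    refine h1.congr fun n => ?_
    exact Real.sqrt_sq (norm_nonneg _)
  rw [tendsto_iff_norm_sub_tendsto_zero]
  refine hn0.congr fun n => ?_
  rw [hd]
  simp only
  rw [neg_smul, sub_neg_eq_add]


theorem key_15450 (p z : ℂ) : Complex.normSq (1 - conj p * z) - Complex.normSq (z - p) =
    (1 - Complex.normSq p) * (1 - Complex.normSq z) := by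
  simp only [Complex.normSq_apply, Complex.sub_re, Complex.sub_im, Complex.mul_re, Complex.mul_im,
    Complex.conj_re, Complex.conj_im, Complex.one_re, Complex.one_im]
  ring

theorem nsq_15450 {z : ℂ} (hz : ‖z‖ < 1) : Complex.normSq z < 1 := by
  rw [Complex.normSq_eq_norm_sq]
  have := norm_nonneg z
  nlinarith

theorem den_15450 {p z : ℂ} (hp : ‖p‖ < 1) (hz : ‖z‖ < 1) : 1 - conj p * z ≠ 0 := by
  have h := key_15450 p z
  have h1 := nsq_15450 hp
  have h2 := nsq_15450 hz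
  have h3 := Complex.normSq_nonneg (z - p)
  have h4 : 0 < (1 - Complex.normSq p) * (1 - Complex.normSq z) :=
    mul_pos (by linarith) (by linarith)
  rw [← Complex.normSq_pos]
  linarith

theorem phi_lt_15450 {c p z : ℂ} (hc : ‖c‖ = 1) (hp : ‖p‖ < 1) (hz : ‖z‖ < 1) :
    ‖c * ((z - p) / (1 - conj p * z))‖ < 1 := by
  have h := key_15450 p z
  have h1 := nsq_15450 hp
  have h2 := nsq_15450 hz
  have h4 : 0 < (1 - Complex.normSq p) * (1 - Complex.normSq z) :=
    mul_pos (by linarith) (by linarith)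
  have h5 := den_15450 hp hz
  rw [norm_mul, hc, one_mul, norm_div, div_lt_one (norm_pos_iff.2 h5)]
  apply lt_of_pow_lt_pow_left₀ 2 (norm_nonneg _)
  rw [← Complex.normSq_eq_norm_sq, ← Complex.normSq_eq_norm_sq]
  linarith

/-- TARGET: composition with a disc automorphism is bounded on `H²` -/
theorem exists_comp (c p : ℂ) (hc : ‖c‖ = 1) (hp : ‖p‖ < 1) :
    ∃ C : H2 →L[ℂ] H2, ∀ f : H2, ∀ z : ℂ, ‖z‖ < 1 →
      ev (C f) z = ev f (c * ((z - p) / (1 - conj p * z))) := by
  obtain ⟨M, hM⟩ := exists_mult p hp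
  obtain ⟨S, hS⟩ := exists_mult 0 (by simp)
  obtain ⟨s, hs⟩ : ∃ s : ℝ, s = Real.sqrt (1 - ‖p‖ ^ 2) := ⟨_, rfl⟩
  have hpos := one_sub_sq_pos hp
  have hs0 : 0 < s := by rw [hs]; exact Real.sqrt_pos.2 hpos
  have hs2 : s ^ 2 = 1 - ‖p‖ ^ 2 := by rw [hs]; exact Real.sq_sqrt hpos.le
  obtain ⟨Mp, hMp⟩ : ∃ Mp : H2 → H2, Mp = fun f => c • M f := ⟨_, rfl⟩
  obtain ⟨k0, hk0⟩ : ∃ k0 : H2, k0 = (s : ℂ) • kz p := ⟨_, rfl⟩
  have hk0n : ‖k0‖ = 1 := by
    have h1 : ‖k0‖ ^ 2 = 1 := by
      rw [hk0, norm_smul, mul_pow, norm_kz_sq hp, Complex.norm_real, Real.norm_eq_abs, sq_abs, hs2]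
      field_simp
    have h2 : 0 ≤ ‖k0‖ := norm_nonneg _
    nlinarith
  have hMi : ∀ f g, inner ℂ (Mp f) (Mp g) = inner ℂ f g := by
    intro f g
    rw [hMp]
    show inner ℂ (c • M f) (c • M g) = inner ℂ f g
    rw [inner_smul_left, inner_smul_right, M.inner_map_map, ← mul_assoc, Complex.conj_mul', hc]
    simp
  have hMit : ∀ m f g, inner ℂ (Mp^[m] f) (Mp^[m] g) = inner ℂ f g := by
    intro m
    induction m with
    | zero => intro f g; rfl
    | succ m ih =>
      intro f g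
      rw [Function.iterate_succ_apply', Function.iterate_succ_apply', hMi, ih]
  have hev : ∀ (m : ℕ) (f : H2) (z : ℂ), ‖z‖ < 1 →
      ev (Mp^[m] f) z = (c * ((z - p) / (1 - conj p * z))) ^ m * ev f z := by
    intro m
    induction m with
    | zero => intro f z _; simp
    | succ m ih =>
      intro f z hz
      rw [Function.iterate_succ_apply', hMp]
      show ev (c • M ((fun f => c • M f)^[m] f)) z = _
      rw [ev_smul hz, hM _ z hz, ← hMp, ih f z hz]
      ring
  have hinn : ∀ g : H2, inner ℂ k0 g = (s : ℂ) * ev g p := by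
    intro g
    rw [hk0, inner_smul_left, inner_kz hp, Complex.conj_ofReal]
  have hortho : ∀ m n : ℕ, m < n → inner ℂ (Mp^[m] k0) (Mp^[n] k0) = (0 : ℂ) := by
    intro m n hmn
    obtain ⟨d, rfl⟩ : ∃ d, n = m + (d + 1) := ⟨n - m - 1, by omega⟩
    rw [Function.iterate_add_apply, hMit, hinn, hev (d + 1) k0 p hp]
    simp
  have hon : Orthonormal ℂ (fun n : ℕ => Mp^[n] k0) := by
    constructor
    · intro n
      have h1 := hMit n k0 k0
      rw [inner_self_eq_norm_sq_to_K, inner_self_eq_norm_sq_to_K, hk0n] at h1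
      have h2 : ‖Mp^[n] k0‖ ^ 2 = 1 := by
        have h3 : ((‖Mp^[n] k0‖ ^ 2 : ℝ) : ℂ) = ((1 : ℝ) : ℂ) := by
          push_cast
          simpa using h1
        exact_mod_cast h3
      have h4 : 0 ≤ ‖Mp^[n] k0‖ := norm_nonneg _
      show ‖Mp^[n] k0‖ = 1
      nlinarith
    · intro m n hmn
      rcases lt_or_gt_of_ne hmn with h | h
      · exact hortho m n h
      · rw [← inner_conj_symm, hortho n m h, map_zero]
  obtain ⟨V, hV⟩ : ∃ V : H2 →ₗᵢ[ℂ] H2, ∀ f : H2, HasSum (fun n => f n • Mp^[n] k0) (V f) := by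
    refine ⟨hon.orthogonalFamily.linearIsometry, fun f => ?_⟩
    have := hon.orthogonalFamily.hasSum_linearIsometry f
    exact this
  have hVev : ∀ (f : H2) (z : ℂ), ‖z‖ < 1 → ev (V f) z =
      (s : ℂ) / (1 - conj p * z) * ev f (c * ((z - p) / (1 - conj p * z))) := by
    intro f z hz
    have h1 : HasSum (fun n => inner ℂ (kz z) (f n • Mp^[n] k0)) (inner ℂ (kz z) (V f)) :=
      (hV f).mapL (innerSL ℂ (kz z))
    rw [inner_kz hz] at h1
    have hphi := phi_lt_15450 hc hp hz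
    have h2 := (hasSum_ev hphi f).mul_left ((s : ℂ) / (1 - conj p * z))
    rw [inner_kz hphi] at h2
    refine h1.unique ?_
    have h3 : (fun n => inner ℂ (kz z) (f n • Mp^[n] k0)) = fun n =>
        (s : ℂ) / (1 - conj p * z) * (f n * (c * ((z - p) / (1 - conj p * z))) ^ n) := by
      funext n
      rw [inner_smul_right, inner_kz hz, hev n k0 z hz, hk0, ev_smul hz, ev_kz hp hz]
      ring
    rw [h3]
    exact h2
  refine ⟨((s : ℂ)⁻¹) • (V.toContinuousLinearMap -
    (conj p) • (S.toContinuousLinearMap.comp V.toContinuousLinearMap)), fun f z hz => ?_⟩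
  show ev (((s : ℂ)⁻¹) • (V f - (conj p) • S (V f))) z = _
  rw [ev_smul hz, ev_sub hz, ev_smul hz, hS _ z hz, hVev f z hz]
  have hd := den_15450 hp hz
  have hs' : (s : ℂ) ≠ 0 := by exact_mod_cast hs0.ne'
  simp only [map_zero, zero_mul, sub_zero, div_one]
  generalize ev f (c * ((z - p) / (1 - conj p * z))) = X
  field_simp


end F96
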