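import Pool.Agent.Helper368.F96.Basics
import Pool.Agent.Helper368.F96.Mult
import Pool.Agent.Helper368.F96.Abs
import Pool.Agent.Helper368.F96.Euler

open scoped ComplexConjugate
open Filter

namespace F96

/-- Cayley transform from the upper half plane to the disc, `b ↦ 0` -/
noncomputable def zt (η b s : ℂ) : ℂ := conj η * ((s - b) / (s - conj b))

lemma sub_conj_ne {b s : ℂ} (hb : 0 < b.im) (hs : 0 < s.im) : s - conj b ≠ 0 := by
  intro h
  have := congrArg Complex.im h
  simp at this
  linarith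

lemma b_sub_conj_ne {b : ℂ} (hb : 0 < b.im) : b - conj b ≠ 0 := sub_conj_ne hb hb

lemma conj_sub_ne {b s : ℂ} (hb : 0 < b.im) (hs : 0 < s.im) : conj s - b ≠ 0 := by
  intro h
  have := congrArg Complex.im h
  simp at this
  linarith

lemma one_sub_norm_zt_sq {η b s : ℂ} (hη : ‖η‖ = 1) (hb : 0 < b.im) (hs : 0 < s.im) :
    1 - ‖zt η b s‖ ^ 2 = 4 * b.im * s.im / ‖s - conj b‖ ^ 2 := by
  have h1 : ‖s - conj b‖ ^ 2 ≠ 0 := by
    have := norm_ne_zero_iff.2 (sub_conj_ne hb hs)
    positivity
  unfold zt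
  rw [norm_mul, RCLike.norm_conj, hη, one_mul, norm_div, div_pow]
  rw [eq_div_iff h1, sub_mul, div_mul_cancel₀ _ h1]
  rw [← Complex.normSq_eq_norm_sq, ← Complex.normSq_eq_norm_sq, Complex.normSq_apply,
    Complex.normSq_apply]
  simp
  ring

lemma norm_zt_lt {η b s : ℂ} (hη : ‖η‖ = 1) (hb : 0 < b.im) (hs : 0 < s.im) :
    ‖zt η b s‖ < 1 := by
  have h := one_sub_norm_zt_sq hη hb hs
  have h1 : 0 < ‖s - conj b‖ ^ 2 := by
    have := norm_pos_iff.2 (sub_conj_ne hb hs)
    positivity
  have h2 : 0 < 4 * b.im * s.im / ‖s - conj b‖ ^ 2 := by positivity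
  have h3 : ‖zt η b s‖ ^ 2 < 1 := by linarith
  have := norm_nonneg (zt η b s)
  nlinarith

lemma unim {η : ℂ} (hη : ‖η‖ = 1) : conj η * η = 1 := by
  rw [Complex.conj_mul', hη]
  norm_num

/-- the disc is covered by `zt` -/
lemma exists_zt {η b z : ℂ} (hη : ‖η‖ = 1) (hb : 0 < b.im) (hz : ‖z‖ < 1) :
    ∃ s : ℂ, 0 < s.im ∧ zt η b s = z := by
  have h1 : 1 - η * z ≠ 0 := by
    intro h
    have h2 : ‖η * z‖ = 1 := by
      have : η * z = 1 := by linear_combination -h
      rw [this]
      simp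
    rw [norm_mul, hη, one_mul] at h2
    linarith
  have hbb := b_sub_conj_ne hb
  refine ⟨(b - conj b * (η * z)) / (1 - η * z), ?_, ?_⟩
  · have h3 : (b - conj b * (η * z)) / (1 - η * z) =
        ((b - conj b * (η * z)) * conj (1 - η * z)) / ((‖1 - η * z‖ ^ 2 : ℝ) : ℂ) := by
      rw [div_eq_div_iff h1]
      · have := Complex.conj_mul' (1 - η * z)
        push_cast
        rw [← this]
        ring
      · have := norm_ne_zero_iff.2 h1
        exact_mod_cast pow_ne_zero 2 this
    rw [h3, Complex.div_ofReal_im]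
    have h4 : 0 < ‖1 - η * z‖ ^ 2 := by
      have := norm_pos_iff.2 h1
      positivity
    apply div_pos _ h4
    have h5 : ((b - conj b * (η * z)) * conj (1 - η * z)).im = b.im * (1 - ‖η * z‖ ^ 2) := by
      rw [← Complex.normSq_eq_norm_sq, Complex.normSq_apply]
      generalize η * z = u
      simp
      ring
    rw [h5, norm_mul, hη, one_mul]
    have := one_sub_sq_pos hz
    positivity
  · unfold zt
    have h6 : (b - conj b * (η * z)) / (1 - η * z) - b = (b - conj b) * (η * z) / (1 - η * z) := by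
      field_simp
      ring
    have h7 : (b - conj b * (η * z)) / (1 - η * z) - conj b = (b - conj b) / (1 - η * z) := by
      field_simp
      ring
    rw [h6, h7]
    have h8 : (b - conj b) * (η * z) / (1 - η * z) / ((b - conj b) / (1 - η * z)) = η * z := by
      field_simp
    rw [h8, ← mul_assoc, unim hη, one_mul]

/-- `1 - conj (zt s) * zt u` -/
lemma one_sub_conj_zt {η b s u : ℂ} (hη : ‖η‖ = 1) (hb : 0 < b.im) (hs : 0 < s.im)
    (hu : 0 < u.im) :
    1 - conj (zt η b s) * zt η b u = (b - conj b) * (conj s - u) / ((conj s - b) * (u - conj b)) := by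
  have h1 := sub_conj_ne hb hu
  have h2 := conj_sub_ne hb hs
  unfold zt
  rw [map_mul, map_div₀, map_sub, map_sub, Complex.conj_conj, Complex.conj_conj]
  have h3 : η * ((conj s - conj b) / (conj s - b)) * (conj η * ((u - b) / (u - conj b))) =
      (conj η * η) * (((conj s - conj b) / (conj s - b)) * ((u - b) / (u - conj b))) := by ring
  rw [h3, unim hη, one_mul]
  field_simp
  ring

lemma conj_sub_ne' {s u : ℂ} (hs : 0 < s.im) (hu : 0 < u.im) : conj s - u ≠ 0 := conj_sub_ne hu hs

lemma ev_kz_zt {η b s u : ℂ} (hη : ‖η‖ = 1) (hb : 0 < b.im) (hs : 0 < s.im)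
    (hu : 0 < u.im) :
    ev (kz (zt η b s)) (zt η b u) =
      (conj s - b) * (u - conj b) / ((b - conj b) * (conj s - u)) := by
  rw [ev_kz (norm_zt_lt hη hb hs) (norm_zt_lt hη hb hu), one_sub_conj_zt hη hb hs hu, one_div_div]

end F96
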