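import Pool.Agent.Helper368.F96.Fin

open scoped ComplexConjugate
open Filter

namespace F96

lemma C_kz {η b : ℂ} (hη : ‖η‖ = 1) (hb : 0 < b.im) (lam t : ℝ) (hlam : 0 < lam) (φ : ℂ → ℂ)
    (hφ : ∀ s : ℂ, 0 < s.im → φ (zt η b s) = zt η b (lam * s + t))
    (C : H2 →L[ℂ] H2) (hC : ∀ f : H2, ∀ z : ℂ, ‖z‖ < 1 → ev (C f) z = ev f (φ z))
    (s : ℂ) (hs : 0 < s.im) (hsb : s ≠ b) :
    C (kz (zt η b (lam * s + t))) =
      ((conj (lam * s + t) - b) / (b - conj b) *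
        (-1 + (conj (lam * s + t) - conj b) / (lam * (conj s - conj b)))) • kz 0 +
      ((conj (lam * s + t) - b) * (conj (lam * s + t) - conj b) /
        (lam * ((conj s - conj b) * (conj s - b)))) • kz (zt η b s) := by
  have him : ∀ v : ℂ, 0 < v.im → 0 < ((lam : ℂ) * v + t).im := by
    intro v hv
    simp only [Complex.add_im, Complex.im_ofReal_mul, Complex.ofReal_im, add_zero]
    positivity
  apply ext_zt hη hb
  intro u hu
  have hz := norm_zt_lt hη hb hu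
  have h0 : ‖(0 : ℂ)‖ < 1 := by simp
  rw [hC _ _ hz, hφ u hu, ev_kz_zt hη hb (him s hs) (him u hu), ev_add hz, ev_smul hz, ev_smul hz,
    ev_kz_zt hη hb hs hu, ev_kz h0 hz, map_zero, zero_mul, sub_zero, map_add, map_mul,
    Complex.conj_ofReal, Complex.conj_ofReal]
  have h1 := conj_sub_ne' hs hu
  have h2 : (lam : ℂ) ≠ 0 := by exact_mod_cast hlam.ne'
  have h3 := b_sub_conj_ne hb
  have h4 : conj s - conj b ≠ 0 := by
    rw [← map_sub]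
    rw [Ne, map_eq_zero]
    exact sub_ne_zero.2 hsb
  have h5 := conj_sub_ne hb hs
  have h6 : (lam : ℂ) * conj s + t - (lam * u + t) = lam * (conj s - u) := by ring
  rw [h6]
  field_simp
  ring

lemma eigen {η b : ℂ} (hη : ‖η‖ = 1) (hb : 0 < b.im) (lam t : ℝ) (hlam : 0 < lam) (φ : ℂ → ℂ)
    (hφ : ∀ s : ℂ, 0 < s.im → φ (zt η b s) = zt η b (lam * s + t))
    (C : H2 →L[ℂ] H2) (hC : ∀ f : H2, ∀ z : ℂ, ‖z‖ < 1 → ev (C f) z = ev f (φ z))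
    (w : ℝ) (hw : ∀ x, ‖(inner ℂ x (C x) : ℂ)‖ ≤ w * ‖x‖ ^ 2) (f : H2) (hf1 : ‖f‖ = 1)
    (e : ℂ) (he : ‖e‖ = 1) (hfe : e * inner ℂ f (C f) = w) (hf0 : ev f 0 = 0)
    (s : ℂ) (hs : 0 < s.im) (hsb : s ≠ b) :
    e * ev f (zt η b (lam * (lam * s + t) + t)) +
      conj e * ((lam * s + t - b) * (lam * s + t - conj b) / (lam * ((s - b) * (s - conj b))) *
        ev f (zt η b s)) = 2 * w * ev f (zt η b (lam * s + t)) := by
  have him : 0 < ((lam : ℂ) * s + t).im := by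
    simp only [Complex.add_im, Complex.im_ofReal_mul, Complex.ofReal_im, add_zero]
    positivity
  have h0 : ‖(0 : ℂ)‖ < 1 := by simp
  have hz := norm_zt_lt hη hb him
  have h := euler C w hw f hf1 e he hfe (kz (zt η b (lam * s + t)))
  rw [inner_kz hz, inner_kz hz, hC _ _ hz, hφ _ him, C_kz hη hb lam t hlam φ hφ C hC s hs hsb,
    inner_add_left, inner_smul_left, inner_smul_left, inner_kz h0, hf0, mul_zero, zero_add,
    inner_kz (norm_zt_lt hη hb hs)] at h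
  rw [← h]
  congr 3
  rw [map_div₀, map_mul, map_mul, map_mul, map_sub, map_sub, map_sub, map_sub, Complex.conj_conj,
    Complex.conj_conj, Complex.conj_conj, Complex.conj_ofReal]
  ring

lemma one_lt_w (C : H2 →L[ℂ] H2) (φ : ℂ → ℂ)
    (hC : ∀ f : H2, ∀ z : ℂ, ‖z‖ < 1 → ev (C f) z = ev f (φ z))
    (hφ0 : ‖φ 0‖ < 1) (hφ1 : φ 0 ≠ 0) (hφ : ∀ z : ℂ, ‖z‖ < 1 → ‖φ z‖ < 1)
    (w : ℝ) (hw : ∀ x, ‖(inner ℂ x (C x) : ℂ)‖ ≤ w * ‖x‖ ^ 2) : 1 < w := by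
  have h0 : ‖(0 : ℂ)‖ < 1 := by simp
  have hk0 : ∀ z : ℂ, ‖z‖ < 1 → ev (kz 0) z = 1 := by
    intro z hz
    rw [ev_kz h0 hz]
    simp
  have hC1 : C (kz 0) = kz 0 := by
    apply ev_injective
    intro z hz
    rw [hC _ z hz, hk0 z hz, hk0 _ (hφ z hz)]
  set a := φ 0 with ha
  set v : H2 := kz a - kz 0 with hv
  have hva : (inner ℂ (kz 0) (C v) : ℂ) = ((1 / (1 - ‖a‖ ^ 2) - 1 : ℝ) : ℂ) := by
    rw [inner_kz h0, hC _ _ h0, ← ha, hv, ev_sub hφ0, ev_kz hφ0 hφ0, hk0 a hφ0,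
      Complex.conj_mul']
    push_cast
    ring
  have hv0 : (inner ℂ v (kz 0) : ℂ) = 0 := by
    rw [← inner_conj_symm, inner_kz h0, hv, ev_sub h0, ev_kz hφ0 h0, hk0 0 h0]
    simp
  have h00 : (inner ℂ (kz 0) (kz 0) : ℂ) = 1 := by
    rw [inner_kz h0, hk0 0 h0]
  set m : ℝ := 1 / (1 - ‖a‖ ^ 2) - 1 with hm
  have hmpos : 0 < m := by
    have h1 := one_sub_sq_pos hφ0
    have h2 : 0 < ‖a‖ ^ 2 := by
      have := norm_pos_iff.2 hφ1
      positivity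
    rw [hm, sub_pos, lt_div_iff₀ h1]
    linarith
  by_contra hle
  rw [not_lt] at hle
  have key : ∀ δ : ℝ, 0 < δ → 1 + δ * m - δ ^ 2 * ‖(inner ℂ v (C v) : ℂ)‖ ≤ 1 + δ ^ 2 * ‖v‖ ^ 2 := by
    intro δ hδ
    have h1 := hw (kz 0 + (δ : ℂ) • v)
    have h2 : (inner ℂ (kz 0 + (δ : ℂ) • v) (C (kz 0 + (δ : ℂ) • v)) : ℂ) =
        ((1 + δ * m : ℝ) : ℂ) + (δ : ℂ) ^ 2 * inner ℂ v (C v) := by
      rw [map_add, map_smul, hC1]
      simp only [inner_add_left, inner_add_right, inner_smul_left, inner_smul_right,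
        Complex.conj_ofReal, h00, hva, hv0]
      push_cast
      ring
    have h3 : ‖kz 0 + (δ : ℂ) • v‖ ^ 2 = 1 + δ ^ 2 * ‖v‖ ^ 2 := by
      have h4 : ‖kz (0 : ℂ)‖ ^ 2 = 1 := by
        rw [norm_kz_sq h0]
        simp
      have h5 : (inner ℂ (kz 0) v : ℂ) = 0 := by
        rw [← inner_conj_symm, hv0, map_zero]
      rw [@norm_add_sq ℂ, h4, norm_smul, inner_smul_right, h5]
      simp [mul_pow]
    rw [h2, h3] at h1
    have h6 : 0 ≤ 1 + δ ^ 2 * ‖v‖ ^ 2 := by positivity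
    have h7 : w * (1 + δ ^ 2 * ‖v‖ ^ 2) ≤ 1 * (1 + δ ^ 2 * ‖v‖ ^ 2) :=
      mul_le_mul_of_nonneg_right hle h6
    have h8 : 1 + δ * m - δ ^ 2 * ‖(inner ℂ v (C v) : ℂ)‖ ≤
        ‖((1 + δ * m : ℝ) : ℂ) + (δ : ℂ) ^ 2 * inner ℂ v (C v)‖ := by
      have h9 := norm_sub_norm_le (((1 + δ * m : ℝ) : ℂ)) (-((δ : ℂ) ^ 2 * inner ℂ v (C v)))
      rw [sub_neg_eq_add, norm_neg, Complex.norm_real, norm_mul, norm_pow, Complex.norm_real,
        Real.norm_eq_abs, Real.norm_eq_abs, sq_abs, abs_of_pos (by positivity)] at h9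
      exact h9
    linarith
  set Q : ℝ := ‖v‖ ^ 2 + ‖(inner ℂ v (C v) : ℂ)‖ with hQ
  have hQ0 : 0 ≤ Q := by positivity
  have h1 := key (m / (2 * (Q + 1))) (by positivity)
  have h2 : m / (2 * (Q + 1)) * m ≤ (m / (2 * (Q + 1))) ^ 2 * Q := by
    rw [hQ]
    nlinarith [h1]
  have h3 : (m / (2 * (Q + 1))) ^ 2 * Q ≤ (m / (2 * (Q + 1))) ^ 2 * (2 * (Q + 1)) := by
    apply mul_le_mul_of_nonneg_left _ (sq_nonneg _)
    linarith
  have h4 : (m / (2 * (Q + 1))) ^ 2 * (2 * (Q + 1)) = m / (2 * (Q + 1)) * m := by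
    field_simp
  have h5 : (m / (2 * (Q + 1))) ^ 2 * Q < (m / (2 * (Q + 1))) ^ 2 * (2 * (Q + 1)) := by
    apply mul_lt_mul_of_pos_left _ (by positivity)
    linarith
  linarith

lemma adj_kz (C : H2 →L[ℂ] H2) (φ : ℂ → ℂ)
    (hC : ∀ f : H2, ∀ z : ℂ, ‖z‖ < 1 → ev (C f) z = ev f (φ z))
    (z : ℂ) (hz : ‖z‖ < 1) (hφz : ‖φ z‖ < 1) :
    ContinuousLinearMap.adjoint C (kz z) = kz (φ z) := by
  apply ext_inner_right ℂ
  intro f
  rw [ContinuousLinearMap.adjoint_inner_left, inner_kz hz, inner_kz hφz, hC f z hz]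

lemma sqrt_le_w {η b : ℂ} (hη : ‖η‖ = 1) (hb : 0 < b.im) (lam : ℝ) (hlam : 1 < lam) (φ : ℂ → ℂ)
    (hφ : ∀ s : ℂ, 0 < s.im → φ (zt η b s) = zt η b (lam * s))
    (C : H2 →L[ℂ] H2) (hC : ∀ f : H2, ∀ z : ℂ, ‖z‖ < 1 → ev (C f) z = ev f (φ z))
    (w : ℝ) (hw : ∀ x, ‖(inner ℂ x (C x) : ℂ)‖ ≤ w * ‖x‖ ^ 2) : Real.sqrt lam ≤ w := by
  have him : ∀ n : ℕ, 0 < ((lam : ℂ) ^ n * b).im := by
    intro n
    have : (lam : ℂ) ^ n * b = ((lam ^ n : ℝ) : ℂ) * b := by push_cast; ring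
    rw [this, Complex.im_ofReal_mul]
    positivity
  have hpow : ∀ n : ℕ, ((ContinuousLinearMap.adjoint C) ^ n) (kz (zt η b b)) =
      kz (zt η b ((lam : ℂ) ^ n * b)) := by
    intro n
    induction n with
    | zero => simp
    | succ n ih =>
      rw [pow_succ', mul_apply_eq_comp, ih]
      have h1 := him n
      have h2 : (lam : ℂ) * ((lam : ℂ) ^ n * b) = (lam : ℂ) ^ (n + 1) * b := by ring
      have h3 := hφ _ h1
      rw [h2] at h3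
      rw [adj_kz C φ hC _ (norm_zt_lt hη hb h1) (by rw [h3]; exact norm_zt_lt hη hb (him (n + 1))),
        h3]
  apply sqrt_le_of_growth C w hw lam hlam (1 / 4) (by norm_num) (kz (zt η b b))
  intro n
  rw [hpow n, norm_kz_sq (norm_zt_lt hη hb (him n)), one_sub_norm_zt_sq hη hb (him n), one_div_div]
  have h1 : ((lam : ℂ) ^ n * b).im = lam ^ n * b.im := by
    have : (lam : ℂ) ^ n * b = ((lam ^ n : ℝ) : ℂ) * b := by push_cast; ring
    rw [this, Complex.im_ofReal_mul]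
  have h2 : lam ^ n * b.im ≤ ‖(lam : ℂ) ^ n * b - conj b‖ := by
    have h3 := Complex.abs_im_le_norm ((lam : ℂ) ^ n * b - conj b)
    have h4 := le_abs_self ((lam : ℂ) ^ n * b - conj b).im
    rw [Complex.sub_im, h1, Complex.conj_im] at h4
    rw [Complex.sub_im, h1, Complex.conj_im] at h3
    linarith
  have h5 : 0 < lam ^ n := by positivity
  have h6 : (lam ^ n * b.im) ^ 2 ≤ ‖(lam : ℂ) ^ n * b - conj b‖ ^ 2 :=
    pow_le_pow_left₀ (by positivity) h2 2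
  rw [h1, le_div_iff₀ (by positivity)]
  calc 1 / 4 * lam ^ n * (4 * b.im * (lam ^ n * b.im)) = (lam ^ n * b.im) ^ 2 := by ring
    _ ≤ _ := h6

end F96
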