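import Pool.Agent.Helper368.F96.Asm

open scoped ComplexConjugate
open Filter

namespace F96

lemma orth_B {η b : ℂ} (hη : ‖η‖ = 1) (hb : 0 < b.im) (lam t : ℝ) (hlam : 0 < lam) (φ : ℂ → ℂ)
    (hφ : ∀ s : ℂ, 0 < s.im → φ (zt η b s) = zt η b (lam * s + t))
    (C : H2 →L[ℂ] H2) (hC : ∀ f : H2, ∀ z : ℂ, ‖z‖ < 1 → ev (C f) z = ev f (φ z))
    (B : ℤ → ℂ) (hB : ∀ n, 0 < (B n).im) (hBs : ∀ n, B (n + 1) = lam * B n + t)
    (a₁ a₂ κ₁ κ₂ : ℂ) (ha₁ : ‖a₁‖ = 1) (ha₂ : ‖a₂‖ = 1) (hκ₁ : ‖κ₁‖ = 1) (hκ₂ : ‖κ₂‖ = 1)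
    (l1 : Tendsto (fun n : ℕ => (B n - b) / (B n - conj b)) atTop (nhds a₁))
    (l2 : Tendsto (fun n : ℕ => (B n - conj b) / (conj (B n) - b)) atTop (nhds κ₁))
    (l3 : Tendsto (fun n : ℕ => (B (-n) - b) / (B (-n) - conj b)) atTop (nhds a₂))
    (l4 : Tendsto (fun n : ℕ => (B (-n) - conj b) / (conj (B (-n)) - b)) atTop (nhds κ₂))
    (w : ℝ) (hw : ∀ x, ‖(inner ℂ x (C x) : ℂ)‖ ≤ w * ‖x‖ ^ 2) (f : H2) (hf1 : ‖f‖ = 1)
    (hf : ‖(inner ℂ f (C f) : ℂ)‖ = w) :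
    (inner ℂ (C (kz (zt η b (B 1)))) (Mop hη hb (hB 0) f) : ℂ) = 0 := by
  apply max_orth C (fun n => Mop hη hb (hB n)) ?_ ?_ (κ₁ * a₁) (κ₂ * a₂) ?_ ?_ ?_ ?_ w hw f hf1 hf
    (kz (zt η b (B 1))) ?_
  · intro m n x
    exact Mop_comm hη hb (hB m) (hB n) x
  · intro n x
    apply ext_zt hη hb
    intro s hs
    have hg : 0 < ((lam : ℂ) * s + t).im := by
      simp only [Complex.add_im, Complex.im_ofReal_mul, Complex.ofReal_im, add_zero]
      positivity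
    have hz := norm_zt_lt hη hb hs
    have h1 := hBs (n - 1)
    rw [sub_add_cancel] at h1
    rw [hC _ _ hz, hφ s hs, ev_Mop hη hb (hB n) x hg, ev_Mop hη hb (hB (n - 1)) _ hs, hC _ _ hz,
      hφ s hs]
    congr 1
    rw [h1]
    have h2 : (lam : ℂ) ≠ 0 := by exact_mod_cast hlam.ne'
    have h3 : (lam : ℂ) * s + t - (lam * B (n - 1) + t) = lam * (s - B (n - 1)) := by ring
    have h4 : (lam : ℂ) * s + t - conj (lam * B (n - 1) + t) = lam * (s - conj (B (n - 1))) := by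
      rw [map_add, map_mul, Complex.conj_ofReal, Complex.conj_ofReal]
      ring
    rw [h3, h4, mul_div_mul_left _ _ h2]
  · rw [norm_mul, ha₁, hκ₁, one_mul]
  · rw [norm_mul, ha₂, hκ₂, one_mul]
  · intro x
    exact tendsto_Mop hη hb (fun n : ℕ => B n) (fun n => hB n) a₁ κ₁ ha₁ l1 l2 x
  · intro x
    exact tendsto_Mop hη hb (fun n : ℕ => B (-n)) (fun n => hB (-n)) a₂ κ₂ ha₂ l3 l4 x
  · intro x
    rw [inner_kz (norm_zt_lt hη hb (hB 1)), ev_Mop hη hb (hB 1) x (hB 1), sub_self, zero_div,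
      zero_mul]

lemma f_zero (c p : ℂ) (hc : ‖c‖ = 1) (hp : ‖p‖ < 1) (hp0 : p ≠ 0)
    (C : H2 →L[ℂ] H2) (hC : ∀ f : H2, ∀ z : ℂ, ‖z‖ < 1 →
      ev (C f) z = ev f (c * ((z - p) / (1 - conj p * z))))
    (η : ℂ) (hη : ‖η‖ = 1) (f g : H2) (hg : ∀ z : ℂ, ‖z‖ < 1 → ev g z = η * z * ev f z)
    (h : (inner ℂ (C (kz (-(c * p)))) g : ℂ) = 0) : ev f 0 = 0 := by
  have h0 : ‖(0 : ℂ)‖ < 1 := by simp
  have ha : ‖-(c * p)‖ < 1 := by rw [norm_neg, norm_mul, hc, one_mul]; exact hp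
  have h1 : (1 - (‖p‖ : ℂ) ^ 2) ≠ 0 := by
    have := one_sub_sq_pos hp
    exact_mod_cast this.ne'
  have hCk : C (kz (-(c * p))) = (1 / (1 - (‖p‖ : ℂ) ^ 2)) • (kz 0 - conj p • shI (kz 0)) := by
    apply ev_injective
    intro z hz
    have hpz : 1 - conj p * z ≠ 0 := by
      intro h
      have h2 : ‖conj p * z‖ = 1 := by
        have : conj p * z = 1 := by linear_combination -h
        rw [this]
        simp
      rw [norm_mul, RCLike.norm_conj] at h2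
      nlinarith [norm_nonneg p, norm_nonneg z]
    have hlt : ‖c * ((z - p) / (1 - conj p * z))‖ < 1 := phi_lt_15450 hc hp hz
    rw [hC _ z hz, ev_kz ha hlt, ev_smul hz, ev_sub hz, ev_smul hz, ev_shI hz, ev_kz h0 hz]
    have hcc : conj c * c = 1 := unim hc
    have hpp : conj p * p = (‖p‖ : ℂ) ^ 2 := Complex.conj_mul' p
    have h3 : 1 - conj (-(c * p)) * (c * ((z - p) / (1 - conj p * z))) =
        (1 - (‖p‖ : ℂ) ^ 2) / (1 - conj p * z) := by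
      rw [map_neg, map_mul, ← hpp]
      field_simp
      linear_combination (conj p * (z - p)) * hcc
    rw [h3, map_zero, zero_mul, sub_zero]
    field_simp
  have hg2 : g = η • shI f := by
    apply ev_injective
    intro z hz
    rw [hg z hz, ev_smul hz, ev_shI hz]
    ring
  rw [hCk, inner_smul_left, inner_sub_left, inner_smul_left, inner_kz h0, hg 0 h0, hg2,
    inner_smul_right, LinearIsometry.inner_map_map, inner_kz h0] at h
  have hη0 : η ≠ 0 := by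
    intro h
    rw [h] at hη
    simp at hη
  have h5 : conj (1 / (1 - (‖p‖ : ℂ) ^ 2)) ≠ 0 := by
    rw [map_ne_zero]
    exact one_div_ne_zero h1
  simpa [hp0, hη0, h5, h1] using h

end F96
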