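import Pool.Agent.Helper368.F96.Eig

open scoped ComplexConjugate
open Filter

namespace F96

lemma tendsto_r (lam : ℝ) (hlam : 1 < lam) :
    Tendsto (fun n : ℕ => ((lam : ℂ)⁻¹) ^ n) atTop (nhds 0) := by
  apply tendsto_pow_atTop_nhds_zero_of_norm_lt_one
  rw [norm_inv, Complex.norm_real, Real.norm_eq_abs, abs_of_pos (by linarith)]
  exact inv_lt_one_of_one_lt₀ hlam

lemma tendsto_mob (r : ℕ → ℂ) (hr : Tendsto r atTop (nhds 0)) (a b c d : ℂ) (hc : c ≠ 0) :
    Tendsto (fun n => (a + r n * b) / (c + r n * d)) atTop (nhds (a / c)) := by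
  have h1 : Tendsto (fun n => a + r n * b) atTop (nhds (a + 0 * b)) :=
    (hr.mul_const b).const_add a
  have h2 : Tendsto (fun n => c + r n * d) atTop (nhds (c + 0 * d)) :=
    (hr.mul_const d).const_add c
  rw [zero_mul, add_zero] at h1 h2
  exact h1.div h2 hc

lemma ne_zero_of_im {b : ℂ} (hb : 0 < b.im) : b ≠ 0 := by
  intro h
  rw [h] at hb
  simp at hb

lemma orth_hyp {η b : ℂ} (hη : ‖η‖ = 1) (hb : 0 < b.im) (lam : ℝ) (hlam : 1 < lam) (φ : ℂ → ℂ)
    (hφ : ∀ s : ℂ, 0 < s.im → φ (zt η b s) = zt η b (lam * s + (0 : ℝ)))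
    (C : H2 →L[ℂ] H2) (hC : ∀ f : H2, ∀ z : ℂ, ‖z‖ < 1 → ev (C f) z = ev f (φ z))
    (w : ℝ) (hw : ∀ x, ‖(inner ℂ x (C x) : ℂ)‖ ≤ w * ‖x‖ ^ 2) (f : H2) (hf1 : ‖f‖ = 1)
    (hf : ‖(inner ℂ f (C f) : ℂ)‖ = w) :
    ∃ g : H2, (∀ z : ℂ, ‖z‖ < 1 → ev g z = η * z * ev f z) ∧
      (inner ℂ (C (kz (φ 0))) g : ℂ) = 0 := by
  have hl0 : (lam : ℂ) ≠ 0 := by exact_mod_cast (by linarith : lam ≠ 0)
  have hb0 := ne_zero_of_im hb
  have hcb0 : conj b ≠ 0 := by rwa [Ne, map_eq_zero]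
  have hB : ∀ n : ℤ, 0 < ((lam : ℂ) ^ n * b).im := by
    intro n
    have : (lam : ℂ) ^ n * b = ((lam ^ n : ℝ) : ℂ) * b := by push_cast; ring
    rw [this, Complex.im_ofReal_mul]
    positivity
  have hcj : ∀ n : ℤ, conj ((lam : ℂ) ^ n * b) = (lam : ℂ) ^ n * conj b := by
    intro n
    rw [map_mul, map_zpow₀, Complex.conj_ofReal]
  have hnb : ‖b / conj b‖ = 1 := by
    rw [norm_div, RCLike.norm_conj, div_self (norm_ne_zero_iff.2 hb0)]
  have hnb' : ‖conj b / b‖ = 1 := by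
    rw [norm_div, RCLike.norm_conj, div_self (norm_ne_zero_iff.2 hb0)]
  have hr := tendsto_r lam hlam
  have hpn : ∀ n : ℕ, (lam : ℂ) ^ (n : ℤ) ≠ 0 := fun n => zpow_ne_zero _ hl0
  have hpi : ∀ n : ℕ, (lam : ℂ) ^ (-(n : ℤ)) = ((lam : ℂ)⁻¹) ^ n := by
    intro n
    rw [zpow_neg, zpow_natCast, inv_pow]
  have hpi2 : ∀ n : ℕ, (lam : ℂ) ^ (n : ℤ) * ((lam : ℂ)⁻¹) ^ n = 1 := by
    intro n
    rw [zpow_natCast, inv_pow, mul_inv_cancel₀ (pow_ne_zero _ hl0)]
  have l1 : Tendsto (fun n : ℕ => ((lam : ℂ) ^ (n : ℤ) * b - b) / ((lam : ℂ) ^ (n : ℤ) * b - conj b))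
      atTop (nhds 1) := by
    have h := tendsto_mob _ hr b (-b) b (-conj b) hb0
    rw [div_self hb0] at h
    refine h.congr ?_
    intro n
    rw [← mul_div_mul_left _ _ (hpn n)]
    congr 1
    · linear_combination (-b) * hpi2 n
    · linear_combination (-conj b) * hpi2 n
  have l2 : Tendsto (fun n : ℕ => ((lam : ℂ) ^ (n : ℤ) * b - conj b) /
      (conj ((lam : ℂ) ^ (n : ℤ) * b) - b)) atTop (nhds (b / conj b)) := by
    have h := tendsto_mob _ hr b (-conj b) (conj b) (-b) hcb0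
    refine h.congr ?_
    intro n
    rw [← mul_div_mul_left _ _ (hpn n), hcj]
    congr 1
    · linear_combination (-conj b) * hpi2 n
    · linear_combination (-b) * hpi2 n
  have l3 : Tendsto (fun n : ℕ => ((lam : ℂ) ^ (-(n : ℤ)) * b - b) /
      ((lam : ℂ) ^ (-(n : ℤ)) * b - conj b)) atTop (nhds (b / conj b)) := by
    have h := tendsto_mob _ hr (-b) b (-conj b) b (neg_ne_zero.2 hcb0)
    rw [neg_div_neg_eq] at h
    refine h.congr ?_
    intro n
    rw [hpi n]
    ring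
  have l4 : Tendsto (fun n : ℕ => ((lam : ℂ) ^ (-(n : ℤ)) * b - conj b) /
      (conj ((lam : ℂ) ^ (-(n : ℤ)) * b) - b)) atTop (nhds (conj b / b)) := by
    have h := tendsto_mob _ hr (-conj b) b (-b) (conj b) (neg_ne_zero.2 hb0)
    rw [neg_div_neg_eq] at h
    refine h.congr ?_
    intro n
    rw [hcj, hpi n]
    ring
  have key := orth_B hη hb lam 0 (by linarith) φ hφ C hC (fun n => (lam : ℂ) ^ n * b) hB
    (by
      intro n
      rw [zpow_add₀ hl0, zpow_one]
      push_cast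
      ring) 1 (b / conj b) (b / conj b) (conj b / b) (by simp) hnb hnb hnb' l1 l2 l3 l4 w hw f hf1 hf
  refine ⟨Mop hη hb (hB 0) f, ?_, ?_⟩
  · intro z hz
    obtain ⟨s, hs, rfl⟩ := exists_zt hη hb hz
    rw [ev_Mop hη hb (hB 0) f hs, zpow_zero, one_mul]
    unfold zt
    rw [← mul_assoc η, mul_comm η, unim hη, one_mul]
  · have h1 : φ 0 = zt η b ((lam : ℂ) ^ (1 : ℤ) * b) := by
      have h2 := hφ b hb
      have h3 : zt η b b = 0 := by
        unfold zt
        simp
      rw [h3] at h2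
      rw [h2, zpow_one, Complex.ofReal_zero, add_zero]
    rw [h1]
    exact key

lemma orth_par {η b : ℂ} (hη : ‖η‖ = 1) (hb : 0 < b.im) (t : ℝ) (ht : t ≠ 0) (φ : ℂ → ℂ)
    (hφ : ∀ s : ℂ, 0 < s.im → φ (zt η b s) = zt η b ((1 : ℝ) * s + t))
    (C : H2 →L[ℂ] H2) (hC : ∀ f : H2, ∀ z : ℂ, ‖z‖ < 1 → ev (C f) z = ev f (φ z))
    (w : ℝ) (hw : ∀ x, ‖(inner ℂ x (C x) : ℂ)‖ ≤ w * ‖x‖ ^ 2) (f : H2) (hf1 : ‖f‖ = 1)
    (hf : ‖(inner ℂ f (C f) : ℂ)‖ = w) :
    ∃ g : H2, (∀ z : ℂ, ‖z‖ < 1 → ev g z = η * z * ev f z) ∧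
      (inner ℂ (C (kz (φ 0))) g : ℂ) = 0 := by
  have ht0 : (t : ℂ) ≠ 0 := by exact_mod_cast ht
  have hB : ∀ n : ℤ, 0 < (b + n * t : ℂ).im := by
    intro n
    simp
    exact hb
  have hcj : ∀ n : ℤ, conj (b + n * t : ℂ) = conj b + n * t := by
    intro n
    simp
  have hr : Tendsto (fun n : ℕ => ((n : ℂ) + 1)⁻¹) atTop (nhds 0) := by
    have h := tendsto_one_div_add_atTop_nhds_zero_nat (𝕜 := ℂ)
    simpa using h
  have hr2 : Tendsto (fun n : ℕ => ((n : ℂ))⁻¹) atTop (nhds 0) := by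
    rw [← tendsto_add_atTop_iff_nat 1]
    simpa using hr
  have hn0 : ∀ᶠ n : ℕ in atTop, (n : ℂ) ≠ 0 := by
    filter_upwards [eventually_gt_atTop 0] with n hn
    exact_mod_cast hn.ne'
  have l1 : Tendsto (fun n : ℕ => ((b + ((n : ℤ) : ℂ) * t) - b) / ((b + ((n : ℤ) : ℂ) * t) - conj b))
      atTop (nhds 1) := by
    have h := tendsto_mob _ hr2 t 0 t (b - conj b) ht0
    rw [div_self ht0] at h
    refine h.congr' ?_
    filter_upwards [hn0] with n hn
    rw [← mul_div_mul_left _ _ hn]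
    congr 1
    · field_simp
      push_cast
      ring
    · field_simp
      push_cast
      ring
  have l2 : Tendsto (fun n : ℕ => ((b + ((n : ℤ) : ℂ) * t) - conj b) /
      (conj (b + ((n : ℤ) : ℂ) * t) - b)) atTop (nhds 1) := by
    have h := tendsto_mob _ hr2 t (b - conj b) t (conj b - b) ht0
    rw [div_self ht0] at h
    refine h.congr' ?_
    filter_upwards [hn0] with n hn
    rw [← mul_div_mul_left _ _ hn, hcj]
    congr 1
    · field_simp
      push_cast
      ring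
    · field_simp
      push_cast
      ring
  have l3 : Tendsto (fun n : ℕ => ((b + ((-(n : ℤ) : ℤ) : ℂ) * t) - b) /
      ((b + ((-(n : ℤ) : ℤ) : ℂ) * t) - conj b)) atTop (nhds 1) := by
    have h := tendsto_mob _ hr2 (-t) 0 (-t) (b - conj b) (neg_ne_zero.2 ht0)
    rw [div_self (neg_ne_zero.2 ht0)] at h
    refine h.congr' ?_
    filter_upwards [hn0] with n hn
    rw [← mul_div_mul_left _ _ hn]
    congr 1
    · field_simp
      push_cast
      ring
    · field_simp
      push_cast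
      ring
  have l4 : Tendsto (fun n : ℕ => ((b + ((-(n : ℤ) : ℤ) : ℂ) * t) - conj b) /
      (conj (b + ((-(n : ℤ) : ℤ) : ℂ) * t) - b)) atTop (nhds 1) := by
    have h := tendsto_mob _ hr2 (-t) (b - conj b) (-t) (conj b - b) (neg_ne_zero.2 ht0)
    rw [div_self (neg_ne_zero.2 ht0)] at h
    refine h.congr' ?_
    filter_upwards [hn0] with n hn
    rw [← mul_div_mul_left _ _ hn, hcj]
    congr 1
    · field_simp
      push_cast
      ring
    · field_simp
      push_cast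
      ring
  have key := orth_B hη hb 1 t (by norm_num) φ hφ C hC (fun n => b + n * t) hB
    (by
      intro n
      push_cast
      ring) 1 1 1 1 (by simp) (by simp) (by simp) (by simp) l1 l2 l3 l4 w hw f hf1 hf
  refine ⟨Mop hη hb (hB 0) f, ?_, ?_⟩
  · intro z hz
    obtain ⟨s, hs, rfl⟩ := exists_zt hη hb hz
    rw [ev_Mop hη hb (hB 0) f hs, Int.cast_zero, zero_mul, add_zero]
    unfold zt
    rw [← mul_assoc η, mul_comm η, unim hη, one_mul]
  · have h1 : φ 0 = zt η b (b + (1 : ℤ) * t) := by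
      have h2 := hφ b hb
      have h3 : zt η b b = 0 := by
        unfold zt
        simp
      rw [h3] at h2
      rw [h2]
      push_cast
      ring_nf
    rw [h1]
    exact key

/-- `zt` is injective on the half plane -/
lemma zt_inj {η b s s' : ℂ} (hη : ‖η‖ = 1) (hb : 0 < b.im) (hs : 0 < s.im) (hs' : 0 < s'.im)
    (h : zt η b s = zt η b s') : s = s' := by
  have h1 := sub_conj_ne hb hs
  have h2 := sub_conj_ne hb hs'
  have h3 := b_sub_conj_ne hb
  unfold zt at h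
  have hη0 : conj η ≠ 0 := by
    rw [Ne, map_eq_zero]
    intro h
    rw [h] at hη
    simp at hη
  have h4 := mul_left_cancel₀ hη0 h
  rw [div_eq_div_iff h1 h2] at h4
  have h5 : (b - conj b) * (s - s') = 0 := by linear_combination h4
  rcases mul_eq_zero.1 h5 with h6 | h6
  · exact absurd h6 h3
  · exact sub_eq_zero.1 h6

lemma f_eq_zero {η b : ℂ} (hη : ‖η‖ = 1) (hb : 0 < b.im) (f : H2) (s₀ α : ℂ) (hα : α ≠ 0)
    (him : ∀ r : ℝ, 0 < r → 0 < (s₀ + r * α).im)
    (h : ∀ r : ℝ, 0 < r → ev f (zt η b (s₀ + r * α)) = 0) : f = 0 := by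
  have h1 := him 1 one_pos
  apply eq_zero_of_frequently (z₀ := zt η b (s₀ + (1 : ℝ) * α)) (norm_zt_lt hη hb h1)
  have hcont : ContinuousAt (fun r : ℝ => zt η b (s₀ + r * α)) 1 := by
    unfold zt
    have h2 := sub_conj_ne hb h1
    fun_prop (disch := assumption)
  have ht : Tendsto (fun r : ℝ => zt η b (s₀ + r * α)) (nhdsWithin 1 {1}ᶜ)
      (nhdsWithin (zt η b (s₀ + (1 : ℝ) * α)) {zt η b (s₀ + (1 : ℝ) * α)}ᶜ) := by
    apply tendsto_nhdsWithin_of_tendsto_nhds_of_eventually_within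
    · exact hcont.tendsto.mono_left nhdsWithin_le_nhds
    · have h3 : ∀ᶠ r : ℝ in nhdsWithin 1 {1}ᶜ, 0 < r :=
        nhdsWithin_le_nhds (eventually_gt_nhds one_pos)
      filter_upwards [h3, self_mem_nhdsWithin] with r hr hr1
      intro heq
      have h4 := zt_inj hη hb (him r hr) h1 heq
      have h5 : ((r : ℂ) - (1 : ℝ)) * α = 0 := by linear_combination h4
      rcases mul_eq_zero.1 h5 with h6 | h6
      · apply hr1
        have h7 := sub_eq_zero.1 h6
        exact_mod_cast h7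
      · exact hα h6
  have h3 : ∀ᶠ r : ℝ in nhdsWithin 1 {1}ᶜ, ev f (zt η b (s₀ + r * α)) = 0 := by
    have h4 : ∀ᶠ r : ℝ in nhdsWithin 1 {1}ᶜ, 0 < r :=
      nhdsWithin_le_nhds (eventually_gt_nhds one_pos)
    filter_upwards [h4] with r hr
    exact h r hr
  exact ht.frequently h3.frequently

/-- the numerical radius is not attained -/
theorem not_attained (c p : ℂ) (hc : ‖c‖ = 1) (hp : ‖p‖ < 1)
    (hfix : ∀ z : ℂ, ‖z‖ < 1 → c * ((z - p) / (1 - conj p * z)) ≠ z)
    (C : H2 →L[ℂ] H2) (hC : ∀ f : H2, ∀ z : ℂ, ‖z‖ < 1 →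
      ev (C f) z = ev f (c * ((z - p) / (1 - conj p * z))))
    (w : ℝ) (hw : ∀ x, ‖(inner ℂ x (C x) : ℂ)‖ ≤ w * ‖x‖ ^ 2) (f : H2) (hf1 : ‖f‖ = 1)
    (hf : ‖(inner ℂ f (C f) : ℂ)‖ = w) : False := by
  have hp0 : p ≠ 0 := by
    intro h
    apply hfix 0 (by simp)
    rw [h]
    simp
  have hc0 : c ≠ 0 := by
    intro h
    rw [h] at hc
    simp at hc
  obtain ⟨η, b, hη, hb, lam, t, hcase, hφ⟩ := classify c p hc hp hfix
  set φ : ℂ → ℂ := fun z => c * ((z - p) / (1 - conj p * z)) with hφdef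
  have hφ0 : φ 0 = -(c * p) := by
    rw [hφdef]
    simp
  have hφdisc : ∀ z : ℂ, ‖z‖ < 1 → ‖φ z‖ < 1 := fun z hz => phi_lt_15450 hc hp hz
  have hlam : 0 < lam := by
    rcases hcase with h | h
    · linarith [h.1]
    · linarith [h.1]
  have hw1 : 1 < w := one_lt_w C φ hC (hφdisc 0 (by simp)) (by
    rw [hφ0]
    exact neg_ne_zero.2 (mul_ne_zero hc0 hp0)) hφdisc w hw
  -- f(0) = 0
  have hf0 : ev f 0 = 0 := by
    rcases hcase with ⟨h1, h2⟩ | ⟨h1, h2⟩
    · subst h2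
      obtain ⟨g, hg1, hg2⟩ := orth_hyp hη hb lam h1 φ hφ C hC w hw f hf1 hf
      rw [hφ0] at hg2
      exact f_zero c p hc hp hp0 C hC η hη f g hg1 hg2
    · subst h1
      obtain ⟨g, hg1, hg2⟩ := orth_par hη hb t h2 φ hφ C hC w hw f hf1 hf
      rw [hφ0] at hg2
      exact f_zero c p hc hp hp0 C hC η hη f g hg1 hg2
  -- phase
  have hw0 : (w : ℂ) ≠ 0 := by exact_mod_cast (by linarith : w ≠ 0)
  obtain ⟨e, he, hfe⟩ : ∃ e : ℂ, ‖e‖ = 1 ∧ e * inner ℂ f (C f) = w := by
    refine ⟨conj (inner ℂ f (C f) : ℂ) / w, ?_, ?_⟩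
    · rw [norm_div, RCLike.norm_conj, hf, Complex.norm_real, Real.norm_eq_abs,
        abs_of_pos (by linarith), div_self (by linarith)]
    · rw [div_mul_eq_mul_div, Complex.conj_mul', hf]
      field_simp
  have heig := eigen hη hb lam t hlam φ hφ C hC w hw f hf1 e he hfe hf0
  have hgrow : ∀ s : ℂ, 0 < s.im →
      ‖ev f (zt η b s)‖ ^ 2 ≤ (1 / (4 * b.im)) * ‖s - conj b‖ ^ 2 / s.im := by
    intro s hs
    have h1 := norm_ev_sq_le (norm_zt_lt hη hb hs) f
    rw [hf1, one_sub_norm_zt_sq hη hb hs] at h1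
    calc _ ≤ _ := h1
      _ = _ := by
        field_simp
  have hfz : f = 0 := by
    rcases hcase with ⟨h1, h2⟩ | ⟨h1, h2⟩
    · subst h2
      have hsq : Real.sqrt lam ≤ w := by
        apply sqrt_le_w hη hb lam h1 φ _ C hC w hw
        intro s hs
        have := hφ s hs
        simpa using this
      have hl0 : (lam : ℂ) ≠ 0 := by exact_mod_cast hlam.ne'
      obtain ⟨α, hα, hz⟩ := ray_zero lam h1 b hb e he w hsq (fun s => ev f (zt η b s)) _ hgrow (by
        intro s hs hsb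
        have him : 0 < (s / lam).im := by
          rw [Complex.div_ofReal_im]
          positivity
        have h3 := heig (s / lam) him hsb
        have h4 : (lam : ℂ) * (s / lam) + ((0 : ℝ) : ℂ) = s := by
          push_cast
          field_simp
          ring
        rw [h4] at h3
        have h5 : (lam : ℂ) * s + ((0 : ℝ) : ℂ) = lam * s := by simp
        rw [h5] at h3
        exact h3)
      apply f_eq_zero hη hb f 0 α (ne_zero_of_im hα)
      · intro r hr
        rw [zero_add, Complex.im_ofReal_mul]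
        positivity
      · intro r hr
        rw [zero_add]
        exact hz r hr
    · subst h1
      obtain ⟨Y, hY, hz⟩ := line_zero t b hb e he w hw1 (fun s => ev f (zt η b s)) _ hgrow (by
        intro s hs hsb
        have him : 0 < (s - t).im := by simpa using hs
        have h3 := heig (s - t) him hsb
        have h4 : ((1 : ℝ) : ℂ) * (s - t) + t = s := by
          push_cast
          ring
        rw [h4] at h3
        have h5 : ((1 : ℝ) : ℂ) * s + t = s + t := by simp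
        rw [h5] at h3
        have h6 : ((1 : ℝ) : ℂ) * ((s - t - b) * (s - t - conj b)) =
          (s - t - b) * (s - t - conj b) := by simp
        rw [h6] at h3
        exact h3)
      apply f_eq_zero hη hb f (Y * Complex.I) Complex.I Complex.I_ne_zero
      · intro r hr
        simp
        positivity
      · intro r hr
        apply hz
        simp
        positivity
  rw [hfz] at hf1
  simp at hf1

end F96
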